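import Pool.Agent.NH25.AP.Tor2

/-!
# Subtorsors at almost all tuples of algebraic points
-/

set_option autoImplicit false
set_option linter.unusedSectionVars false

open Matrix Module PowerSeries Filter Topology

namespace Pool.Agent.NH25.AP

open Pool.Agent.Y916.Al Pool.Agent.Y916.Af Pool.Agent.Y119.HZ Pool.Agent.Y118.UL
open Pool.Agent.TH127.PT Pool.Agent.Y123.ST Pool.Agent.Y123.GN
open Pool.Agent.Y113 hiding ix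

section

variable {k : ℕ} {n : Fin k → ℕ} {B₀ : Type} [Fintype B₀] [DecidableEq B₀]

/-- the conclusion -/
def GoodT (D : ℕ) (𝒢 : ∀ i, Subgroup (Matrix (Fin (n i)) (Fin (n i)) ℂ)ˣ) (c : Matrix (IG B₀ n) (IG B₀ n) ℂ) : Prop :=
  ∀ K : Subfield ℂ, FiniteDimensional ℚ K → finrank ℚ K ≤ D → ∀ T : Set (Matrix (IG B₀ n) (IG B₀ n) ℂ),
    IsSubtorsor K T → c ∈ T → ∀ g : ∀ i, (Matrix (Fin (n i)) (Fin (n i)) ℂ)ˣ,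
      (∀ i, g i ∈ ⁅Ug (𝒢 i), Ug (𝒢 i)⁆) →
        ∀ x ∈ T, EG 1 (fun i => (g i : Matrix (Fin (n i)) (Fin (n i)) ℂ)) * x ∈ T

/-- **stability at one tuple** -/
theorem stabT (m D : ℕ) : ∃ d : ℕ, ∀ (B₀ : Type) [Fintype B₀] [DecidableEq B₀] (k : ℕ) (n : Fin k → ℕ),
    Fintype.card (IG B₀ n) ≤ m → ∀ (𝒢 : ∀ i, Subgroup (Matrix (Fin (n i)) (Fin (n i)) ℂ)ˣ)
    (c : Matrix (IG B₀ n) (IG B₀ n) ℂ), (∀ g ∈ Ug (GG B₀ 𝒢), Rl ⊥ d c (g * c)) → GoodT D 𝒢 c := by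
  obtain ⟨d, hd1, hd⟩ := comm_all m D
  refine ⟨d, ?_⟩
  intro B₀ _ _ k n hcard 𝒢 c hrel K hKf hKD T hT hcT g hg
  obtain ⟨hcomm, -, -⟩ := hd (IG B₀ n) hcard _ (GG B₀ 𝒢) hrel K hKf hKD T hT hcT
  refine all_blocksG fun i => ?_
  refine hcomm _ ?_
  have h1 : em B₀ i (g i) ∈ (⁅Ug (𝒢 i), Ug (𝒢 i)⁆ : Subgroup _).map (em B₀ i) := ⟨g i, hg i, rfl⟩
  rw [Subgroup.map_commutator] at h1
  exact Subgroup.commutator_mono em_Ug em_Ug h1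

/-- **The counting theorem.** -/
theorem all_A (D r : ℕ) {N : ∀ i, Matrix (Fin (n i)) (Fin (n i)) ℤ} {H : ∀ i, Matrix (Fin (n i)) (Fin (n i)) ℚ⟦X⟧}
    (hN : ∀ i, N i ^ n i = 0) (hnr : ∀ i, NRh (hT (H i))) {C : ℝ} (hC : 0 ≤ C)
    (hh : ∀ i a b m, |((coeff m (H i a b) : ℚ) : ℝ)| ≤ C ^ (m + 1)) (m : Fin k → ℕ) {η : ℝ} (hη : 0 < η) (hη1 : η ≤ 1) :
    ∃ c C' : ℝ, 0 < c ∧ 0 ≤ C' ∧ ∀ (Ω : ∀ i, Matrix (Fin (n i)) (Fin (n i)) ℂ) (C₀ : Matrix (Fin r) (Fin r) ℂ) (T : ℕ),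
      1 ≤ T → ∀ a : Fin k → ℕ, (∀ i, 1 ≤ a i ∧ (a i : ℝ) ≤ (T : ℝ) ^ (1 - η)) →
      ∃ S : Finset (Fin k → ℂ), (S.card : ℝ) ≤ C' * (T : ℝ) ^ (((∑ i, Pool.Agent.Y916.Sl.Mm (m i) : ℕ) : ℝ) - c) ∧
        ∀ β : Fin k → ℂ, (∀ i, Pool.Agent.Y916.Sl.AInt (m i) T (β i)) → β ∉ S →
        ∀ ℓ : Fin k → ℂ, (∀ i, Complex.exp (ℓ i) = β i / a i) →
          GoodT D (fun i => Gl (N i) (H i) (Ω i)) (EG C₀ fun i => pC (N i) (H i) (Ω i) (β i / a i) (ℓ i)) := by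
  classical
  obtain ⟨d, hd⟩ := stabT (r + ∑ i, n i) D
  obtain ⟨e, he'⟩ : ∃ e : ℕ, e = 1 + ∑ i, n i := ⟨_, rfl⟩
  have he : ∀ i, n i + 1 ≤ e := by
    intro i
    have h1 : n i ≤ ∑ i, n i := Finset.single_le_sum (f := n) (fun _ _ => Nat.zero_le _) (Finset.mem_univ i)
    omega
  obtain ⟨w, hw⟩ : ∃ w : ℕ, w = 1 + Fintype.card ((Fin r × Fin r) ⊕ (Σ i, Fin (n i) × Fin (n i))) + 1 := ⟨_, rfl⟩
  obtain ⟨B₁, hB₁⟩ := exists_nat_ge C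
  obtain ⟨δ₁, c, hc, C', hC', hmain⟩ := tupDaG hnr m (e * d) 1 (w * w ^ d * w ^ d) B₁ hη hη1
  refine ⟨c, C', hc, hC', ?_⟩
  intro Ω C₀ T hT a ha
  obtain ⟨hbf, hb1⟩ := bot_fin
  obtain ⟨W, hW1, hW2, hKW, hW3⟩ := exists_W' (⊥ : Subfield ℂ)
    (Sum.elim (fun b : Fin r × Fin r => C₀ b.1 b.2) (fun v : Σ i, Fin (n i) × Fin (n i) => Ω v.1 v.2.1 v.2.2))
  have hWD : Module.finrank ℚ W ≤ w := by
    rw [hw]
    refine hW2.trans ?_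
    omega
  obtain ⟨hp1, hp2⟩ := finrank_pow_le W d
  obtain ⟨hq1, hq2⟩ := finrank_mul_le W (W ^ d)
  obtain ⟨hr1, hr2⟩ := finrank_mul_le (W * W ^ d) (W ^ d)
  have hwd : finrank ℚ (W ^ d : Submodule ℚ ℂ) ≤ w ^ d := hp2.trans (Nat.pow_le_pow_left hWD _)
  have hV : finrank ℚ (W * W ^ d * W ^ d : Submodule ℚ ℂ) ≤ w * w ^ d * w ^ d :=
    hr2.trans (Nat.mul_le_mul (hq2.trans (Nat.mul_le_mul hWD hwd)) hwd)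
  obtain ⟨S, hS, hmain'⟩ := hmain (W * W ^ d * W ^ d) hr1 hV T hT a ha
  refine ⟨S, hS, fun β hβ hβS ℓ hℓ => ?_⟩
  obtain ⟨h1, h2⟩ := hmain' β hβ hβS
  by_cases hΩ : ∀ i, IsUnit (Ω i)
  · refine hd (Fin r) k n (by rw [card_IG, Fintype.card_fin]) _ _ fun g hg => ?_
    exact Rl_A hC hh hN hΩ hKW (fun a b => hW3 (Sum.inl (a, b))) (fun i a b => hW3 (Sum.inr ⟨i, (a, b)⟩)) he hℓ
      (fun i => lt_of_le_of_lt hB₁ (h1 i)) h2 g hg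
  · intro K hKf hKD T' hT' hcT
    exfalso
    apply hΩ
    intro i
    have h3 : IsUnit (pC (N i) (H i) (Ω i) (β i / a i) (ℓ i)) := EG_block_unit (hT'.isUnit _ hcT) i
    rw [Matrix.isUnit_iff_isUnit_det] at h3 ⊢
    unfold pC at h3
    rw [Matrix.det_mul, Matrix.det_mul] at h3
    exact isUnit_of_mul_isUnit_left (isUnit_of_mul_isUnit_left h3)

end

end Pool.Agent.NH25.AP
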