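import Pool.Agent.Y916.Af.Gs3

/-!
# Families of G-functions at algebraic points `β / a`: counting, uniformly in the denominators `a ≤ T ^ (1 - η)`
-/

set_option autoImplicit false

open PowerSeries Module

namespace Pool.Agent.NH25.AP

open Pool.Agent.Y113 Pool.Agent.Y916.Al Pool.Agent.Y916.AW Pool.Agent.Y916.Af Pool.Agent.Y916

variable {r : ℕ}

open Classical in
/-- the points of small absolute value -/
theorem small_le (m T : ℕ) (hT : 1 ≤ T) {κ : ℝ} {b : ℝ} (hb1 : 1 ≤ b) (hb : b ≤ (T : ℝ) ^ (1 - κ)) :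
    (((Sl.NF m T).filter fun ξ => ‖ξ‖ ≤ b).card : ℝ) ≤
      2 * ((3 * 2 ^ m) ^ m * m : ℝ) * (T : ℝ) ^ ((Sl.Mm m : ℝ) - κ) := by
  have hT1 : (1 : ℝ) ≤ T := by exact_mod_cast hT
  have hT0 : (0 : ℝ) < T := by linarith
  set B : ℕ := ⌈b⌉₊ with hB
  have hB1 : 1 ≤ B := Nat.one_le_ceil_iff.2 (by linarith)
  have hBb : (B : ℝ) ≤ 2 * b := by
    have h1 : (B : ℝ) < b + 1 := Nat.ceil_lt_add_one (by linarith)
    linarith
  set C₀ : ℝ := (3 * 2 ^ m) ^ m * m with hC₀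
  have hC₀0 : 0 ≤ C₀ := by positivity
  have h1 := Sl.card_small m T B hT hB1
  have h0 : (((Sl.NF m T).filter fun ξ => ‖ξ‖ ≤ b).card : ℝ) ≤ ((Sl.NF m T).filter fun ξ => ‖ξ‖ ≤ B).card := by
    exact_mod_cast Finset.card_le_card (Finset.monotone_filter_right _ fun ξ _ hξ => le_trans hξ (Nat.le_ceil b))
  refine h0.trans ?_
  have h2 : (T : ℝ) ^ ((Sl.Mm m : ℝ) - κ) = (T : ℝ) ^ Sl.Mm m * (T : ℝ) ^ (1 - κ) / T := by
    rw [← Real.rpow_natCast, ← Real.rpow_add hT0, eq_div_iff hT0.ne']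
    nth_rewrite 2 [← Real.rpow_one (T : ℝ)]
    rw [← Real.rpow_add hT0]
    congr 1
    ring
  rw [h2, ← mul_div_assoc, le_div_iff₀ hT0]
  refine h1.trans ?_
  have h3 : (B : ℝ) ≤ 2 * (T : ℝ) ^ (1 - κ) := hBb.trans (by linarith)
  calc C₀ * B * (T : ℝ) ^ Sl.Mm m ≤ C₀ * (2 * (T : ℝ) ^ (1 - κ)) * (T : ℝ) ^ Sl.Mm m := by
        refine mul_le_mul_of_nonneg_right (mul_le_mul_of_nonneg_left h3 hC₀0) (by positivity)
    _ = _ := by ring

open Classical in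
/-- few bad points, uniformly in the denominators -/
theorem deg_badA {h : Fin r → ℚ⟦X⟧} {G : ℕ} (hG : 1 ≤ G) {I : Finset (Fin r)}
    (hval : Sl.InpA (fun ξ g (i : Option I) => vc G h ξ g (i.map Subtype.val))) (m : ℕ) {η : ℝ} (hη : 0 < η)
    (hη1 : η ≤ 1) (δ D : ℕ) :
    ∃ c : ℝ, 0 < c ∧ ∃ C : ℝ, 0 ≤ C ∧ ∀ V : Submodule ℚ ℂ, Module.Finite ℚ V → finrank ℚ V ≤ D → ∀ T : ℕ, 1 ≤ T →
      ∀ a : ℕ, (1 ≤ a ∧ (a : ℝ) ≤ (T : ℝ) ^ (1 - η)) →
      (((Sl.NF m T).filter fun ξ => Rel δ V (fun i : Option I => xc h (ξ / a) (i.map Subtype.val))).card : ℝ) ≤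
        C * (T : ℝ) ^ ((Sl.Mm m : ℝ) - c) := by
  obtain ⟨A₀, hA₀⟩ := exists_nat_ge (12 / η)
  obtain ⟨M, E, hwin⟩ := Sl.hwinS (va G h I) (inpA_va hG hval) (xa G h I) (fun _ => True) m 1 2 1 (link_va h hG I m)
    (r := 1) (fun _ => 0) (fun _ _ _ => Subsingleton.elim _ _) A₀ δ D
  have hGR : (1 : ℝ) ≤ G := by exact_mod_cast hG
  have hG0 : (G : ℂ) ≠ 0 := by exact_mod_cast (by omega : G ≠ 0)
  set E' := E + 2 with hE'
  have hE'0 : (0 : ℝ) < E' := by positivity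
  set ε : ℝ := η / (4 * E') with hε
  have hε0 : 0 < ε := by positivity
  have hE'1 : (1 : ℝ) ≤ E' := by exact_mod_cast (by omega : 1 ≤ E')
  have hεη : ε ≤ η / 4 := by
    rw [hε]
    refine div_le_div_of_nonneg_left hη.le (by norm_num) ?_
    linarith
  set C₀ : ℝ := (3 * 2 ^ m) ^ m * m with hC₀
  have hC₀0 : 0 ≤ C₀ := by positivity
  -- the threshold
  obtain ⟨T₀, hT₀1, hT₀⟩ : ∃ T₀ : ℕ, 1 ≤ T₀ ∧ ∀ T : ℕ, T₀ ≤ T → (3 * G : ℝ) ≤ (T : ℝ) ^ ε := by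
    have h1 : Filter.Tendsto (fun T : ℕ => (T : ℝ) ^ ε) Filter.atTop Filter.atTop :=
      (tendsto_rpow_atTop hε0).comp tendsto_natCast_atTop_atTop
    obtain ⟨n, hn⟩ := (h1.eventually_ge_atTop (3 * G : ℝ)).exists_forall_of_atTop
    exact ⟨n + 1, by omega, fun T hT => hn T (by omega)⟩
  have hT₀R : (1 : ℝ) ≤ T₀ := by exact_mod_cast hT₀1
  refine ⟨ε, hε0, M * (C₀ * 2 ^ Sl.Mm m) + 4 * C₀ + C₀ * (T₀ : ℝ) ^ ε, by positivity,
    fun V hV hVD T hT a ⟨ha, haT⟩ => ?_⟩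
  have hT1 : (1 : ℝ) ≤ T := by exact_mod_cast hT
  have hT0 : (0 : ℝ) < T := by linarith
  have haR : (1 : ℝ) ≤ a := by exact_mod_cast ha
  have ha0 : (a : ℂ) ≠ 0 := by exact_mod_cast (by omega : a ≠ 0)
  obtain ⟨Bd, hBd⟩ : ∃ Bd : ℂ → Prop, ∀ ξ, Bd ξ ↔ Rel δ V (fun i : Option I => xc h (ξ / a) (i.map Subtype.val)) :=
    ⟨_, fun _ => Iff.rfl⟩
  have hgoal : ((Sl.NF m T).filter fun ξ => Rel δ V (fun i : Option I => xc h (ξ / a) (i.map Subtype.val))) =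
      (Sl.NF m T).filter fun ξ => Bd ξ := by
    ext ξ
    simp only [Finset.mem_filter, hBd]
  rw [hgoal]
  have hcardT := Sl.card_NF m T hT
  have hbase : 0 ≤ (T : ℝ) ^ ((Sl.Mm m : ℝ) - ε) := by positivity
  rcases lt_or_ge T T₀ with hTT | hTT
  · have h1 : (((Sl.NF m T).filter fun ξ => Bd ξ).card : ℝ) ≤ C₀ * (T : ℝ) ^ Sl.Mm m :=
      le_trans (by exact_mod_cast Finset.card_filter_le _ _) hcardT
    refine h1.trans ?_
    have h2 : (T : ℝ) ^ Sl.Mm m = (T : ℝ) ^ ε * (T : ℝ) ^ ((Sl.Mm m : ℝ) - ε) := by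
      rw [← Real.rpow_add hT0, ← Real.rpow_natCast]
      congr 1
      ring
    have h3 : (T : ℝ) ^ ε ≤ (T₀ : ℝ) ^ ε := Real.rpow_le_rpow hT0.le (by exact_mod_cast hTT.le) hε0.le
    rw [h2]
    calc C₀ * ((T : ℝ) ^ ε * (T : ℝ) ^ ((Sl.Mm m : ℝ) - ε)) ≤ C₀ * ((T₀ : ℝ) ^ ε * (T : ℝ) ^ ((Sl.Mm m : ℝ) - ε)) :=
          mul_le_mul_of_nonneg_left (mul_le_mul_of_nonneg_right h3 hbase) hC₀0
      _ = (C₀ * (T₀ : ℝ) ^ ε) * (T : ℝ) ^ ((Sl.Mm m : ℝ) - ε) := by ring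
      _ ≤ _ := mul_le_mul_of_nonneg_right (by
          have : 0 ≤ (M : ℝ) * (C₀ * 2 ^ Sl.Mm m) + 4 * C₀ := by positivity
          linarith) hbase
  -- the main case
  set b : ℝ := (T : ℝ) ^ ε with hb
  have hb3 : (3 * G : ℝ) ≤ b := hT₀ T hTT
  have hb1 : 1 ≤ b := by linarith
  set σ : ℝ := (T : ℝ) ^ (η / 2) with hσ
  have hσ0 : 0 < σ := by positivity
  have hbσ : (b ^ 2) ^ E' = σ := by
    rw [hb, hσ, ← pow_mul, ← Real.rpow_natCast ((T : ℝ) ^ ε), ← Real.rpow_mul hT0.le]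
    congr 1
    rw [hε]
    push_cast
    field_simp
    ring
  have hb2 : 1 ≤ b ^ 2 := one_le_pow₀ hb1
  have hb2σ : b ^ 2 ≤ σ := by
    rw [← hbσ]
    exact le_self_pow₀ hb2 (by omega)
  have hσ1 : 1 ≤ σ := hb2.trans hb2σ
  set s : ℝ := a * σ with hs
  have hs1 : 1 ≤ s := by nlinarith
  have hs0 : 0 < s := by linarith
  have hsT' : s ≤ (T : ℝ) ^ (1 - η / 2) := by
    have h1 : (T : ℝ) ^ (1 - η / 2) = (T : ℝ) ^ (1 - η) * (T : ℝ) ^ (η / 2) := by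
      rw [← Real.rpow_add hT0]
      congr 1
      ring
    rw [h1, hs, hσ]
    exact mul_le_mul_of_nonneg_right haT (by positivity)
  have hsT : s ≤ T := by
    refine hsT'.trans ?_
    calc (T : ℝ) ^ (1 - η / 2) ≤ (T : ℝ) ^ (1 : ℝ) := Real.rpow_le_rpow_of_exponent_le hT1 (by linarith)
      _ = T := Real.rpow_one _
  have haT1 : (a : ℝ) ≤ T := by
    refine haT.trans ?_
    calc (T : ℝ) ^ (1 - η) ≤ (T : ℝ) ^ (1 : ℝ) := Real.rpow_le_rpow_of_exponent_le hT1 (by linarith)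
      _ = T := Real.rpow_one _
  set H : ℕ := ⌊b⌋₊ with hH
  have hHb : (H : ℝ) ≤ b := Nat.floor_le (by positivity)
  have hH0 : (0 : ℝ) ≤ H := Nat.cast_nonneg H
  have hGH : (G : ℝ) * ((H : ℝ) + 2) ≤ b ^ 2 := by nlinarith
  have hGH1 : 1 ≤ (G : ℝ) * ((H : ℝ) + 2) := by nlinarith
  have hHE : (G : ℝ) * ((H : ℝ) + 2) ^ E ≤ σ := by
    rw [← hbσ]
    refine le_trans ?_ (pow_le_pow_left₀ (by positivity) hGH _)
    have h1 : (G : ℝ) ≤ (G : ℝ) ^ E' := le_self_pow₀ hGR (by omega)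
    have h2 : ((H : ℝ) + 2) ^ E ≤ ((H : ℝ) + 2) ^ E' := pow_le_pow_right₀ (by linarith) (by omega)
    rw [mul_pow]
    exact mul_le_mul h1 h2 (by positivity) (by positivity)
  have hG2 : (G : ℝ) * G ≤ σ := by
    refine le_trans ?_ hb2σ
    nlinarith
  have hHs : ((G * a * H : ℕ) : ℝ) ≤ s := by
    push_cast
    have h1 : (G : ℝ) * H ≤ σ := by
      refine le_trans ?_ hb2σ
      nlinarith
    rw [hs]
    nlinarith
  have hHTn : G * a * H ≤ T := by exact_mod_cast hHs.trans hsT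
  have hGT : 2 * (G : ℝ) ≤ T := by
    have h1 : b ≤ T := by
      rw [hb]
      calc (T : ℝ) ^ ε ≤ (T : ℝ) ^ (1 : ℝ) := Real.rpow_le_rpow_of_exponent_le hT1 (by linarith)
        _ = T := Real.rpow_one _
    linarith
  have hT3 : (2 * G : ℝ) * (T * T) ≤ T ^ 3 := by
    have : 0 ≤ (T : ℝ) * T := by positivity
    nlinarith
  have hGa : 1 ≤ G * a := Nat.mul_pos hG ha
  have hGaR : (0 : ℝ) < (G : ℝ) * a := by positivity
  have hdc := double_countG m (G * a) Bd M H T s hHTn hHs (by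
    intro ξ hξ hsξ S hS
    obtain ⟨K, ξ', hKf, hKd, hξ', hPt⟩ := pt_scale hGa (T := ((2 * T : ℕ) : ℝ)) (by
      push_cast
      linarith) hξ
    have hn : ‖(ξ' : ℂ)‖ = ‖ξ‖ / (G * a) := by
      rw [hξ', norm_div, norm_neg, Complex.norm_natCast]
      push_cast
      rfl
    have hsG : σ / G ≤ ‖(ξ' : ℂ)‖ := by
      rw [hn, div_le_div_iff₀ (by linarith) hGaR]
      have h1 : a * σ ≤ ‖ξ‖ := hsξ
      have h2 : (0 : ℝ) ≤ G := by linarith
      calc σ * (G * a) = G * (a * σ) := by ring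
        _ ≤ G * ‖ξ‖ := mul_le_mul_of_nonneg_left h1 h2
        _ = _ := by ring
    refine hwin V hV hVD H K ξ' _ hKf hKd hPt ?_ ?_ 1 (Or.inl rfl) S ?_
    · refine le_trans ?_ hsG
      rw [le_div_iff₀ (by linarith), mul_comm]
      exact hHE
    · have h1 : (T : ℝ) ^ (η / 4) ≤ ‖(ξ' : ℂ)‖ := by
        refine le_trans ?_ hsG
        rw [le_div_iff₀ (by linarith)]
        have h2 : (T : ℝ) ^ (η / 4) * (T : ℝ) ^ (η / 4) = σ := by
          rw [hσ, ← Real.rpow_add hT0]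
          congr 1
          ring
        have h3 : (G : ℝ) ≤ (T : ℝ) ^ (η / 4) := by
          refine le_trans (by linarith : (G : ℝ) ≤ b) ?_
          rw [hb]
          exact Real.rpow_le_rpow_of_exponent_le hT1 hεη
        rw [← h2]
        exact mul_le_mul_of_nonneg_left h3 (by positivity)
      have h2 : (T : ℝ) ^ 3 ≤ ‖(ξ' : ℂ)‖ ^ A₀ := by
        refine le_trans ?_ (pow_le_pow_left₀ (by positivity) h1 A₀)
        rw [← Real.rpow_natCast ((T : ℝ) ^ (η / 4)) A₀, ← Real.rpow_mul hT0.le, ← Real.rpow_natCast (T : ℝ) 3]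
        refine Real.rpow_le_rpow_of_exponent_le hT1 ?_
        have h3 : 12 ≤ A₀ * η := by
          rw [div_le_iff₀ hη] at hA₀
          exact hA₀
        push_cast
        linarith
      refine le_trans ?_ (hT3.trans h2)
      push_cast
      have h4 : (a : ℝ) * T ≤ T * T := mul_le_mul_of_nonneg_right haT1 hT0.le
      have h5 : (0 : ℝ) ≤ 2 * G := by linarith
      calc (G : ℝ) * a * (2 * T) = (2 * G) * (a * T) := by ring
        _ ≤ _ := mul_le_mul_of_nonneg_left h4 h5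
    · intro g hg
      obtain ⟨h1, h2⟩ := hS g hg
      refine ⟨h1, fun _ => trivial, ?_⟩
      have h3 := (hBd _).1 h2
      have h4 := h3.reindex (Equiv.uniqueProd (Option I) (Fin 1))
      have h5 : (fun p : Fin 1 × Option I => xa G h I ((ξ' : ℂ) - ((1 : ℤ) : ℂ) * (g : ℂ) + ((0 : ℕ) : ℂ)) p.2) =
          fun p => xc h ((ξ + ((G * a * g : ℕ) : ℂ)) / a) (((Equiv.uniqueProd (Option I) (Fin 1)) p).map Subtype.val) := by
        funext p
        show xc h (-(G : ℂ) * ((ξ' : ℂ) - ((1 : ℤ) : ℂ) * (g : ℂ) + ((0 : ℕ) : ℂ))) _ = _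
        have h6 : -(G : ℂ) * ((ξ' : ℂ) - ((1 : ℤ) : ℂ) * (g : ℂ) + ((0 : ℕ) : ℂ)) =
            (ξ + ((G * a * g : ℕ) : ℂ)) / a := by
          rw [hξ']
          push_cast
          field_simp
          ring
        rw [h6]
        rfl
      exact h5 ▸ h4)
  -- the large points
  set L := (Sl.NF m T).filter fun ξ => Bd ξ ∧ 2 * s ≤ ‖ξ‖ with hL
  have hLc : (L.card : ℝ) ≤ M * (C₀ * 2 ^ Sl.Mm m) * (T : ℝ) ^ ((Sl.Mm m : ℝ) - ε) := by
    have h1 : (L.card : ℝ) * ((H : ℝ) + 1) ≤ M * ((Sl.NF m (2 * T)).card : ℝ) := by exact_mod_cast hdc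
    have h2 : (T : ℝ) ^ ε ≤ (H : ℝ) + 1 := (Nat.lt_floor_add_one _).le
    have h3 := Sl.card_NF m (2 * T) (by omega)
    have h4 : (L.card : ℝ) * (T : ℝ) ^ ε ≤ M * (C₀ * 2 ^ Sl.Mm m) * (T : ℝ) ^ Sl.Mm m := by
      calc (L.card : ℝ) * (T : ℝ) ^ ε ≤ (L.card : ℝ) * ((H : ℝ) + 1) := mul_le_mul_of_nonneg_left h2 (Nat.cast_nonneg _)
        _ ≤ M * ((Sl.NF m (2 * T)).card : ℝ) := h1
        _ ≤ M * (C₀ * ((2 * T : ℕ) : ℝ) ^ Sl.Mm m) := mul_le_mul_of_nonneg_left h3 (Nat.cast_nonneg _)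
        _ = _ := by push_cast; rw [mul_pow]; ring
    have h5 : (T : ℝ) ^ ((Sl.Mm m : ℝ) - ε) = (T : ℝ) ^ Sl.Mm m / (T : ℝ) ^ ε := by
      rw [Real.rpow_sub hT0, Real.rpow_natCast]
    rw [h5, ← mul_div_assoc, le_div_iff₀ (by positivity)]
    exact h4
  -- the small points
  set Sm := (Sl.NF m T).filter fun ξ => ‖ξ‖ ≤ 2 * s with hSm
  have hSc : (Sm.card : ℝ) ≤ 4 * C₀ * (T : ℝ) ^ ((Sl.Mm m : ℝ) - ε) := by
    have hks : 2 * s ≤ (T : ℝ) ^ (1 - ε) := by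
      have h1 : (T : ℝ) ^ (1 - ε) = (T : ℝ) ^ (1 - η / 2) * (T : ℝ) ^ (η / 2 - ε) := by
        rw [← Real.rpow_add hT0]
        congr 1
        ring
      have h2 : 2 ≤ (T : ℝ) ^ (η / 2 - ε) := by
        refine le_trans (by linarith : (2 : ℝ) ≤ b) ?_
        rw [hb]
        exact Real.rpow_le_rpow_of_exponent_le hT1 (by linarith)
      rw [h1]
      calc 2 * s = s * 2 := mul_comm _ _
        _ ≤ _ := mul_le_mul hsT' h2 (by norm_num) (by positivity)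
    have h1 := small_le m T hT (κ := ε) (b := 2 * s) (by linarith) hks
    refine h1.trans ?_
    refine mul_le_mul_of_nonneg_right ?_ hbase
    linarith
  have hcov : (Sl.NF m T).filter (fun ξ => Bd ξ) ⊆ L ∪ Sm := by
    intro ξ hξ
    obtain ⟨hξ1, hξ2⟩ := Finset.mem_filter.1 hξ
    rw [Finset.mem_union]
    rcases le_total (2 * s) ‖ξ‖ with h | h
    · exact Or.inl (Finset.mem_filter.2 ⟨hξ1, hξ2, h⟩)
    · exact Or.inr (Finset.mem_filter.2 ⟨hξ1, h⟩)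
  calc (((Sl.NF m T).filter fun ξ => Bd ξ).card : ℝ) ≤ ((L ∪ Sm).card : ℝ) := by exact_mod_cast Finset.card_le_card hcov
    _ ≤ L.card + Sm.card := by exact_mod_cast Finset.card_union_le _ _
    _ ≤ M * (C₀ * 2 ^ Sl.Mm m) * (T : ℝ) ^ ((Sl.Mm m : ℝ) - ε) + 4 * C₀ * (T : ℝ) ^ ((Sl.Mm m : ℝ) - ε) :=
        add_le_add hLc hSc
    _ = (M * (C₀ * 2 ^ Sl.Mm m) + 4 * C₀) * (T : ℝ) ^ ((Sl.Mm m : ℝ) - ε) := by ring
    _ ≤ _ := mul_le_mul_of_nonneg_right (by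
        have : 0 ≤ C₀ * (T₀ : ℝ) ^ ε := by positivity
        linarith) hbase

open Classical in
/-- few bad tuples, uniformly in parameters -/
theorem tuples_countU {ι σ Λ : Type} [Fintype σ] (pts : ℕ → Finset ι) (x : Λ → ι → σ → ℂ) (Ad : ℕ → Λ → Prop) (m : ℕ)
    (C₀ : ℝ) (hC₀ : 0 ≤ C₀) (hpts : ∀ T : ℕ, 1 ≤ T → ((pts T).card : ℝ) ≤ C₀ * (T : ℝ) ^ m)
    (hbad : ∀ δ D : ℕ, ∃ c : ℝ, 0 < c ∧ ∃ C : ℝ, 0 ≤ C ∧ ∀ (V : Submodule ℚ ℂ), Module.Finite ℚ V →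
      Module.finrank ℚ V ≤ D → ∀ T : ℕ, 1 ≤ T → ∀ a : Λ, Ad T a → (((pts T).filter fun n => Rel δ V (x a n)).card : ℝ) ≤
        C * (T : ℝ) ^ ((m : ℝ) - c))
    (δ k : ℕ) : ∀ D : ℕ, ∃ c : ℝ, 0 < c ∧ ∃ C : ℝ, 0 ≤ C ∧ ∀ V : Submodule ℚ ℂ, Module.Finite ℚ V →
      Module.finrank ℚ V ≤ D → ∀ T : ℕ, 1 ≤ T → ∀ a : Fin k → Λ, (∀ i, Ad T (a i)) →
      (((Fintype.piFinset fun _ : Fin k => pts T).filter fun t =>
        Rel δ V (fun p : Fin k × σ => x (a p.1) (t p.1) p.2)).card : ℝ) ≤ C * (T : ℝ) ^ (((k * m : ℕ) : ℝ) - c) := by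
  induction k with
  | zero =>
    intro D
    refine ⟨1, one_pos, 0, le_rfl, fun V _ _ T _ a _ => ?_⟩
    rw [Finset.filter_false_of_mem, Finset.card_empty]
    · simp
    · rintro t _ ⟨P, hP0, -, -, hPv⟩
      obtain ⟨a, rfl⟩ : ∃ a, P = MvPolynomial.C a := ⟨_, MvPolynomial.eq_C_of_isEmpty P⟩
      rw [MvPolynomial.aeval_C] at hPv
      apply hP0
      have : a = 0 := hPv
      rw [this, map_zero]
  | succ k ih =>
    intro D
    obtain ⟨c₁, hc₁, C₁, hC₁, h₁⟩ := ih D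
    obtain ⟨c₂, hc₂, C₂, hC₂, h₂⟩ := hbad δ (D * (k * Fintype.card σ + 1) ^ δ)
    refine ⟨min c₁ c₂, lt_min hc₁ hc₂, C₀ * C₁ + C₀ ^ k * C₂, by positivity, fun V hV hVD T hT a ha => ?_⟩
    have hT1 : (1 : ℝ) ≤ T := by exact_mod_cast hT
    have hT0 : (0 : ℝ) < T := by linarith
    set tp : (Fin k → ι) → Fin k × σ → ℂ := fun t p => x (a p.1.succ) (t p.1) p.2 with htp
    set bad₁ := (Fintype.piFinset fun _ : Fin k => pts T).filter fun t => Rel δ V (tp t) with hbad₁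
    set bad₂ : (Fin k → ι) → Finset ι := fun t => (pts T).filter fun n => Rel δ (V * (sp (tp t)) ^ δ) (x (a 0) n) with hbad₂
    have hsub : ((Fintype.piFinset fun _ : Fin (k + 1) => pts T).filter fun t =>
        Rel δ V (fun p : Fin (k + 1) × σ => x (a p.1) (t p.1) p.2)) ⊆
        ((pts T ×ˢ bad₁).image fun p => (Fin.cons p.1 p.2 : Fin (k + 1) → ι)) ∪
        (((Fintype.piFinset fun _ : Fin k => pts T).sigma bad₂).image
          fun p => (Fin.cons p.2 p.1 : Fin (k + 1) → ι)) := by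
      intro t ht
      obtain ⟨ht1, ht2⟩ := Finset.mem_filter.1 ht
      rw [Fintype.mem_piFinset] at ht1
      set e : Fin k × σ ⊕ σ ≃ Fin (k + 1) × σ :=
        { toFun := Sum.elim (fun p => (p.1.succ, p.2)) (fun s => (0, s))
          invFun := fun p => Fin.cases (Sum.inr p.2) (fun i => Sum.inl (i, p.2)) p.1
          left_inv := by rintro (⟨i, s⟩ | s) <;> simp
          right_inv := by
            rintro ⟨i, s⟩
            refine Fin.cases ?_ (fun i => ?_) i <;> simp } with he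
      have h3 := ht2.reindex e
      have h4 : (fun j => x (a (e j).1) (t (e j).1) (e j).2) = Sum.elim (tp fun i => t i.succ) (x (a 0) (t 0)) := by
        funext j
        rcases j with ⟨i, s⟩ | s
        · rfl
        · rfl
      rw [h4] at h3
      have htail : (fun i => t i.succ) ∈ Fintype.piFinset fun _ : Fin k => pts T := by
        rw [Fintype.mem_piFinset]
        exact fun i => ht1 i.succ
      rcases h3.split with h5 | h5
      · refine Finset.mem_union_left _ (Finset.mem_image.2 ⟨(t 0, fun i => t i.succ), ?_, ?_⟩)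
        · exact Finset.mem_product.2 ⟨ht1 0, Finset.mem_filter.2 ⟨htail, h5⟩⟩
        · funext i
          refine Fin.cases ?_ (fun i => ?_) i <;> simp
      · refine Finset.mem_union_right _ (Finset.mem_image.2 ⟨⟨fun i => t i.succ, t 0⟩, ?_, ?_⟩)
        · exact Finset.mem_sigma.2 ⟨htail, Finset.mem_filter.2 ⟨ht1 0, h5⟩⟩
        · funext i
          refine Fin.cases ?_ (fun i => ?_) i <;> simp
    have hcard : (((Fintype.piFinset fun _ : Fin (k + 1) => pts T).filter fun t =>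
        Rel δ V (fun p : Fin (k + 1) × σ => x (a p.1) (t p.1) p.2)).card : ℝ) ≤
        (C₀ * (T : ℝ) ^ m) * (C₁ * (T : ℝ) ^ (((k * m : ℕ) : ℝ) - c₁)) + (C₀ * (T : ℝ) ^ m) ^ k * (C₂ * (T : ℝ) ^ ((m : ℝ) - c₂)) := by
      have h3 : (((Fintype.piFinset fun _ : Fin (k + 1) => pts T).filter fun t =>
          Rel δ V (fun p : Fin (k + 1) × σ => x (a p.1) (t p.1) p.2)).card : ℝ) ≤
          ((pts T ×ˢ bad₁).card : ℝ) + (((Fintype.piFinset fun _ : Fin k => pts T).sigma bad₂).card : ℝ) := by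
        exact_mod_cast (Finset.card_le_card hsub).trans ((Finset.card_union_le _ _).trans
          (add_le_add Finset.card_image_le Finset.card_image_le))
      refine h3.trans (add_le_add ?_ ?_)
      · rw [Finset.card_product, Nat.cast_mul]
        exact mul_le_mul (hpts T hT) (h₁ V hV hVD T hT (fun i => a i.succ) fun i => ha i.succ) (by positivity)
          (by positivity)
      · rw [Finset.card_sigma, Nat.cast_sum]
        have h4 : ∀ t ∈ Fintype.piFinset (fun _ : Fin k => pts T), ((bad₂ t).card : ℝ) ≤ C₂ * (T : ℝ) ^ ((m : ℝ) - c₂) := by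
          intro t _
          obtain ⟨hs1, hs2⟩ := sp_fin (tp t)
          obtain ⟨hp1, hp2⟩ := finrank_pow_le (sp (tp t)) δ
          obtain ⟨hq1, hq2⟩ := finrank_mul_le V ((sp (tp t)) ^ δ)
          refine h₂ (V * (sp (tp t)) ^ δ) hq1 (hq2.trans ?_) T hT (a 0) (ha 0)
          refine Nat.mul_le_mul hVD (hp2.trans (Nat.pow_le_pow_left (hs2.trans ?_) _))
          rw [Fintype.card_prod, Fintype.card_fin]
        refine (Finset.sum_le_card_nsmul _ _ _ h4).trans ?_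
        rw [nsmul_eq_mul, Fintype.card_piFinset]
        simp only [Finset.prod_const, Finset.card_univ, Fintype.card_fin]
        rw [Nat.cast_pow]
        refine mul_le_mul_of_nonneg_right ?_ (by positivity)
        exact pow_le_pow_left₀ (by positivity) (hpts T hT) _
    refine hcard.trans ?_
    have e1 : (C₀ * (T : ℝ) ^ m) * (C₁ * (T : ℝ) ^ (((k * m : ℕ) : ℝ) - c₁)) =
        C₀ * C₁ * (T : ℝ) ^ ((((k + 1) * m : ℕ) : ℝ) - c₁) := by
      have : ((((k + 1) * m : ℕ) : ℝ) - c₁) = (m : ℝ) + (((k * m : ℕ) : ℝ) - c₁) := by push_cast; ring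
      rw [this, Real.rpow_add hT0, Real.rpow_natCast]
      ring
    have e2 : (C₀ * (T : ℝ) ^ m) ^ k * (C₂ * (T : ℝ) ^ ((m : ℝ) - c₂)) =
        C₀ ^ k * C₂ * (T : ℝ) ^ ((((k + 1) * m : ℕ) : ℝ) - c₂) := by
      have : ((((k + 1) * m : ℕ) : ℝ) - c₂) = ((m * k : ℕ) : ℝ) + ((m : ℝ) - c₂) := by push_cast; ring
      rw [this, Real.rpow_add hT0, Real.rpow_natCast, mul_pow, ← pow_mul]
      ring
    rw [e1, e2, add_mul (C₀ * C₁)]
    refine add_le_add (mul_le_mul_of_nonneg_left ?_ (mul_nonneg hC₀ hC₁))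
      (mul_le_mul_of_nonneg_left ?_ (mul_nonneg (pow_nonneg hC₀ k) hC₂))
    · exact Real.rpow_le_rpow_of_exponent_le hT1 (by linarith [min_le_left c₁ c₂])
    · exact Real.rpow_le_rpow_of_exponent_le hT1 (by linarith [min_le_right c₁ c₂])

open Classical in
/-- few bad tuples -/
theorem tuplesA {h : Fin r → ℚ⟦X⟧} {G : ℕ} (hG : 1 ≤ G) {I : Finset (Fin r)}
    (hval : Sl.InpA (fun ξ g (i : Option I) => vc G h ξ g (i.map Subtype.val))) (m : ℕ) {η : ℝ} (hη : 0 < η)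
    (hη1 : η ≤ 1) (δ k D : ℕ) :
    ∃ c : ℝ, 0 < c ∧ ∃ C : ℝ, 0 ≤ C ∧ ∀ V : Submodule ℚ ℂ, Module.Finite ℚ V → finrank ℚ V ≤ D → ∀ T : ℕ, 1 ≤ T →
      ∀ a : Fin k → ℕ, (∀ i, 1 ≤ a i ∧ (a i : ℝ) ≤ (T : ℝ) ^ (1 - η)) →
      (((Fintype.piFinset fun _ : Fin k => Sl.NF m T).filter fun β =>
        Rel δ V (fun p : Fin k × Option I => xc h (β p.1 / a p.1) (p.2.map Subtype.val))).card : ℝ) ≤
        C * (T : ℝ) ^ (((k * Sl.Mm m : ℕ) : ℝ) - c) :=
  tuples_countU (fun T : ℕ => Sl.NF m T) (fun (a : ℕ) (β : ℂ) (i : Option I) => xc h (β / a) (i.map Subtype.val))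
    (fun T a => 1 ≤ a ∧ (a : ℝ) ≤ (T : ℝ) ^ (1 - η)) (Sl.Mm m)
    ((3 * 2 ^ m) ^ m * m) (by positivity) (fun T hT => Sl.card_NF m T hT)
    (fun δ D => deg_badA hG hval m hη hη1 δ D) δ k D

end Pool.Agent.NH25.AP
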