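import Pool.Agent.NH25.AP.Gal

/-!
# The curves of period matrices in the fibres
-/

set_option autoImplicit false
set_option linter.unusedSectionVars false

open Matrix Module PowerSeries Filter Topology

namespace Pool.Agent.NH25.AP

open Pool.Agent.Y916.Al Pool.Agent.Y916.Af Pool.Agent.Y120.GH Pool.Agent.Y119.HZ Pool.Agent.Y118.UL

section

variable {n : ℕ}

/-- the matrix `exp (-v N)` over a ring -/
noncomputable def eNg {A : Type} [CommRing A] [Algebra ℚ A] (N : Matrix (Fin n) (Fin n) ℤ) (v : A) : Matrix (Fin n) (Fin n) A :=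
  Matrix.of fun a b => ∑ q ∈ Finset.range (n + 1), algebraMap ℚ A (((N ^ q) a b : ℚ) / q.factorial) * (-v) ^ q

theorem eNg_map {A B : Type} [CommRing A] [Algebra ℚ A] [CommRing B] [Algebra ℚ B] (φ : A →+* B)
    (N : Matrix (Fin n) (Fin n) ℤ) (v : A) (a b : Fin n) : φ (eNg N v a b) = eNg N (φ v) a b := by
  show φ (∑ q ∈ Finset.range (n + 1), algebraMap ℚ A (((N ^ q) a b : ℚ) / q.factorial) * (-v) ^ q) =
    ∑ q ∈ Finset.range (n + 1), algebraMap ℚ B (((N ^ q) a b : ℚ) / q.factorial) * (-φ v) ^ q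
  rw [map_sum]
  refine Finset.sum_congr rfl fun q _ => ?_
  rw [map_mul, map_pow, map_neg]
  congr 1
  exact RingHom.map_rat_algebraMap φ _

theorem eNg_C (N : Matrix (Fin n) (Fin n) ℤ) (ℓ : ℂ) : eNg N ℓ = eN N ℓ := by
  ext a b
  show ∑ q ∈ Finset.range (n + 1), algebraMap ℚ ℂ (((N ^ q) a b : ℚ) / q.factorial) * (-ℓ) ^ q = _
  unfold eN
  rw [Matrix.sum_apply]
  refine Finset.sum_congr rfl fun q _ => ?_
  rw [Matrix.smul_apply, Matrix.map_apply, smul_eq_mul, eq_ratCast]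
  push_cast
  ring

/-- the family of the entries -/
noncomputable def hT (H : Matrix (Fin n) (Fin n) ℚ⟦X⟧) (a : Fin (n * n)) : ℚ⟦X⟧ := H (ix n a).2 (ix n a).1

/-- the point of the fibre which belongs to a matrix -/
noncomputable def yM (Z : Matrix (Fin n) (Fin n) ℂ) (a : Fin (n * n)) : ℂ := Z (ix n a).2 (ix n a).1

/-- **the translates of the period matrix are in the fibre** -/
theorem crv {N : Matrix (Fin n) (Fin n) ℤ} (hN : N ^ n = 0) {H : Matrix (Fin n) (Fin n) ℚ⟦X⟧} {C : ℝ} (hC : 0 ≤ C)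
    (hh : ∀ i j m, |((coeff m (H i j) : ℚ) : ℝ)| ≤ C ^ (m + 1)) {Ω g : Matrix (Fin n) (Fin n) ℂ} (hΩ : IsUnit Ω)
    (hg : PrsL N H Ω g) {z ℓ : ℂ} (hz : Complex.exp ℓ = z) (hs : C < ‖z‖) :
    yM (eN N (-ℓ) * Ω⁻¹ * (g * pC N H Ω z ℓ)) ∈ Vc (hT H) (1 / z) := by
  obtain ⟨B, hB1, hB⟩ := val_memC (h := hT H) ⟨C, fun a m => hh _ _ m⟩
  intro R hR
  -- the relation for the period matrix
  obtain ⟨M, hM⟩ : ∃ M : Matrix (Fin n) (Fin n) (MvPolynomial (Option (Fin n × Fin n)) (Polynomial ℂ)),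
    M = eNg N (-(MvPolynomial.X none)) *
    (Ω⁻¹).map (fun c => MvPolynomial.C (Polynomial.C c)) * Matrix.of fun a b => MvPolynomial.X (some (a, b)) := ⟨_, rfl⟩
  obtain ⟨κ, hκ⟩ : ∃ κ : Polynomial ℚ →+* MvPolynomial (Option (Fin n × Fin n)) (Polynomial ℂ),
    κ = (MvPolynomial.C).comp (Polynomial.mapRingHom (algebraMap ℚ ℂ)) := ⟨_, rfl⟩
  obtain ⟨R', hR'⟩ : ∃ R' : MvPolynomial (Option (Fin n × Fin n)) (Polynomial ℂ),
    R' = MvPolynomial.eval₂ κ (fun a : Fin (n * n) => M (ix n a).2 (ix n a).1) R := ⟨_, rfl⟩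
  have hev : ∀ (x ℓ : ℂ) (Z : Matrix (Fin n) (Fin n) ℂ), relL R' x ℓ Z =
      MvPolynomial.eval₂ (Polynomial.aeval x : Polynomial ℚ →ₐ[ℚ] ℂ).toRingHom (yM (eN N (-ℓ) * Ω⁻¹ * Z)) R := by
    intro x ℓ Z
    obtain ⟨φ, hφ⟩ : ∃ φ : MvPolynomial (Option (Fin n × Fin n)) (Polynomial ℂ) →+* ℂ,
      φ = MvPolynomial.eval₂Hom (Polynomial.evalRingHom x) (fun o => o.elim ℓ fun v => Z v.1 v.2) := ⟨_, rfl⟩
    have h1 : relL R' x ℓ Z = φ R' := by
      rw [hφ]
      rfl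
    rw [h1, hR', MvPolynomial.hom_eval₂]
    have e1 : φ.comp κ = (Polynomial.aeval x : Polynomial ℚ →ₐ[ℚ] ℂ).toRingHom := by
      refine Polynomial.ringHom_ext' (RingHom.ext_rat _ _) ?_
      rw [hκ]
      show φ (MvPolynomial.C ((Polynomial.X : Polynomial ℚ).map (algebraMap ℚ ℂ))) =
        (Polynomial.aeval x : Polynomial ℚ →ₐ[ℚ] ℂ) Polynomial.X
      rw [Polynomial.map_X, Polynomial.aeval_X, hφ, MvPolynomial.eval₂Hom_C, Polynomial.coe_evalRingHom, Polynomial.eval_X]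
    rw [e1]
    congr 1
    · funext a
      show φ (M (ix n a).2 (ix n a).1) = (eN N (-ℓ) * Ω⁻¹ * Z) (ix n a).2 (ix n a).1
      rw [hM, Matrix.mul_apply, Matrix.mul_apply, map_sum]
      refine Finset.sum_congr rfl fun j _ => ?_
      rw [map_mul, Matrix.mul_apply, Matrix.mul_apply, map_sum]
      congr 1
      · refine Finset.sum_congr rfl fun i _ => ?_
        rw [map_mul, eNg_map, ← eNg_C]
        congr 1
        · congr 1
          rw [map_neg, hφ, MvPolynomial.eval₂Hom_X']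
          rfl
        · rw [Matrix.map_apply, hφ, MvPolynomial.eval₂Hom_C, Polynomial.coe_evalRingHom, Polynomial.eval_C]
      · show φ (MvPolynomial.X (some (j, (ix n a).1))) = _
        rw [hφ, MvPolynomial.eval₂Hom_X']
        rfl
  have hid : ∀ (z ℓ : ℂ), eN N (-ℓ) * Ω⁻¹ * pC N H Ω z ℓ = Hm H z := by
    intro z ℓ
    have h1 : Ω⁻¹ * Ω = 1 := Matrix.nonsing_inv_mul _ ((Matrix.isUnit_iff_isUnit_det _).1 hΩ)
    have h2 := eN_mul hN (-ℓ)
    rw [neg_neg] at h2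
    unfold pC
    calc eN N (-ℓ) * Ω⁻¹ * (Ω * eN N ℓ * Hm H z) = eN N (-ℓ) * (Ω⁻¹ * Ω) * eN N ℓ * Hm H z := by
          simp only [Matrix.mul_assoc]
      _ = Hm H z := by rw [h1, Matrix.mul_one, h2, Matrix.one_mul]
  have h0 : ∀ᶠ s : ℝ in atTop, relL R' (1 / (s : ℂ)) ((Real.log s : ℝ) : ℂ) (pC N H Ω s ((Real.log s : ℝ) : ℂ)) = 0 := by
    filter_upwards [eventually_gt_atTop (B : ℝ)] with s hs
    rw [hev, hid]
    have h1 := hB (s : ℂ) (by
      rw [Complex.norm_real, Real.norm_eq_abs]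
      exact lt_of_lt_of_le hs (le_abs_self s)) R hR
    exact h1
  have h1 := cont hC hh Ω g R' (hg R' h0) hz hs
  rw [hev] at h1
  exact h1

/-- polynomial curves are irreducible -/
theorem irr_crv {ι : Type} (G : ι → Polynomial ℂ) : Irr {y : ι → ℂ | ∃ s : ℂ, ∀ i, y i = (G i).eval s} := by
  intro P Q hPQ
  have hev : ∀ (P : MvPolynomial ι ℂ) (s : ℂ), MvPolynomial.eval (fun i => (G i).eval s) P =
      (MvPolynomial.aeval G P).eval s := by
    intro P s
    have h1 := Pool.Agent.Y123.GN.aeval_eval_poly G P s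
    rw [h1]
    congr 1
    exact (MvPolynomial.map_id P).symm
  have hprod : MvPolynomial.aeval G P * MvPolynomial.aeval G Q = 0 := by
    refine Polynomial.funext fun s => ?_
    rw [Polynomial.eval_mul, ← hev, ← hev, Polynomial.eval_zero]
    exact hPQ _ ⟨s, fun i => rfl⟩
  rcases mul_eq_zero.1 hprod with h | h
  · left
    rintro y ⟨s, hs⟩
    have hy : y = fun i => (G i).eval s := funext hs
    rw [hy, hev, h, Polynomial.eval_zero]
  · right
    rintro y ⟨s, hs⟩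
    have hy : y = fun i => (G i).eval s := funext hs
    rw [hy, hev, h, Polynomial.eval_zero]

end

end Pool.Agent.NH25.AP
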