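import Pool.Agent.Y118.UL.Irr
import Pool.Agent.Y916.Af.Stm2
import Pool.Agent.Y977.AF.Br

/-!
# Dependence of the free coordinates for several families

The proof of `Pool.Agent.Y916.Af.t_dep2` for a general set of coordinates, and of `t_br2`.
-/

set_option autoImplicit false
set_option maxHeartbeats 400000

open Filter AlgebraicIndependent Module

namespace Pool.Agent.NH25.AP

open Pool.Agent.Y118.UL Pool.Agent.Y916.Af
open Pool.Agent.Y977.AF hiding spc Vc

theorem depG (σ ε υ : Type) [Fintype σ] [Fintype υ] (e : ε → σ) (k : ℕ) (pp : σ → Fin k)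
    (R : σ → Polynomial (MvPolynomial ε (Polynomial ℚ))) (hR : ∀ s, R s ≠ 0) (xx : ℕ → Fin k → ℂ)
    (halg : ∀ j, IsAlgebraic (Pool.Agent.Y118.UL.U ℚ) (mk ℂ fun n => xx n j))
    (hxx : ∀ c : Polynomial ℚ, c ≠ 0 → ∀ j, ∀ᶠ n in (hyperfilter ℕ : Filter ℕ), Polynomial.aeval (xx n j) c ≠ 0)
    (w : ℕ → υ → ℂ) (Y : ℕ → Set (σ → ℂ)) (hirr : ∀ n, IrrD n (Y n)) (zp : ℕ → σ → ℂ) (hmem : ∀ n, zp n ∈ Y n)
    (hrel : ∀ n, ∀ y ∈ Y n, ∀ s, Polynomial.eval₂ (spc e (xx n (pp s)) y) (y s) (R s) = 0)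
    (D d : ℕ) (K : ℕ → IntermediateField ℚ ℂ) (hf : ∀ n, FiniteDimensional ℚ (K n)) (hD : ∀ n, finrank ℚ (K n) ≤ D)
    (P : ∀ n, MvPolynomial (υ ⊕ σ) (K n)) (hd : ∀ n, (P n).totalDegree ≤ d)
    (hP0 : ∀ n, MvPolynomial.aeval (Sum.elim (w n) (zp n)) (P n) = 0)
    (y0 : ℕ → σ → ℂ) (hy0 : ∀ n, y0 n ∈ Y n) (hPy : ∀ n, MvPolynomial.aeval (Sum.elim (w n) (y0 n)) (P n) ≠ 0) :
    ∃ a : ε, mk ℂ (fun n => zp n (e a)) ∈
      MM.closure (Set.range (fun j : υ => mk ℂ fun n => w n j) ∪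
        ((fun b : ε => mk ℂ (fun n => zp n (e b))) '' {a}ᶜ)) := by
  classical
  by_contra hno
  push Not at hno
  set W : Set (Pool.Agent.Y118.UL.U ℂ) := Set.range (fun j : υ => mk ℂ fun n => w n j) with hW
  set z : ε → Pool.Agent.Y118.UL.U ℂ := fun b => mk ℂ (fun n => zp n (e b)) with hz
  have h1 := ind_of_cl W z hno
  set L0 := IntermediateField.adjoin (Pool.Agent.Y118.UL.U ℚ) W with hL0
  have h2 : AlgebraicIndependent L0 z := IntermediateField.algebraicIndependent_adjoin_iff.2 h1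
  set F := algebraicClosure L0 (Pool.Agent.Y118.UL.U ℂ) with hF
  have h3 : AlgebraicIndependent F z := h2.algebraicClosure
  have hFalg : ∀ c : Pool.Agent.Y118.UL.U ℂ, IsAlgebraic (Pool.Agent.Y118.UL.U ℚ) c → c ∈ F := by
    intro c hc
    rw [hF, mem_algebraicClosure_iff]
    exact hc.tower_top L0
  have hFw : ∀ c ∈ W, c ∈ F := by
    intro c hc
    have : c ∈ L0 := IntermediateField.subset_adjoin _ _ hc
    exact (F.algebraMap_mem (⟨c, this⟩ : L0))
  -- the polynomial over `F`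
  obtain ⟨PP, hPP⟩ := of_seq d (fun n => MvPolynomial.map (algebraMap (K n) ℂ) (P n)) fun n => (tdm _ _).trans (hd n)
  obtain ⟨PF, hPF⟩ := lift_coeffs F (algebraMap F (Pool.Agent.Y118.UL.U ℂ)) (MvPolynomial.map (mk ℂ) PP) (by
    intro m
    rw [MvPolynomial.coeff_map]
    refine ⟨⟨mk ℂ (PP.coeff m), hFalg _ ?_⟩, rfl⟩
    refine alg_of_degree K hf hD _ fun n => ?_
    have h4 := congrArg (MvPolynomial.coeff m) (hPP n)
    rw [MvPolynomial.coeff_map, MvPolynomial.coeff_map] at h4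
    have h5 : PP.coeff m n = algebraMap (K n) ℂ ((P n).coeff m) := h4
    rw [h5]
    exact ((P n).coeff m).2)
  let ww : υ → F := fun j => ⟨mk ℂ fun n => w n j, hFw _ ⟨j, rfl⟩⟩
  let Q : MvPolynomial (σ) F := MvPolynomial.aeval (Sum.elim (fun j => MvPolynomial.C (ww j)) MvPolynomial.X) PF
  have hQ : ∀ ys : ℕ → σ → ℂ, MvPolynomial.aeval (fun a => mk ℂ fun n => ys n a) Q =
      mk ℂ fun n => MvPolynomial.aeval (Sum.elim (w n) (ys n)) (P n) := by
    intro ys
    have h4 : MvPolynomial.aeval (fun a => mk ℂ fun n => ys n a) Q =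
        MvPolynomial.eval (Sum.elim (fun j => mk ℂ fun n => w n j) fun a => mk ℂ fun n => ys n a)
          (MvPolynomial.map (algebraMap F (Pool.Agent.Y118.UL.U ℂ)) PF) := by
      have h5 : (MvPolynomial.aeval (fun a => mk ℂ fun n => ys n a)).comp
          (MvPolynomial.aeval (Sum.elim (fun j => MvPolynomial.C (ww j)) MvPolynomial.X) :
            MvPolynomial (υ ⊕ σ) F →ₐ[F] MvPolynomial (σ) F) =
          MvPolynomial.aeval (Sum.elim (fun j => mk ℂ fun n => w n j) fun a => mk ℂ fun n => ys n a) := by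
        refine MvPolynomial.algHom_ext fun i => ?_
        rcases i with j | a
        · simp [ww]
        · simp
      have h6 := DFunLike.congr_fun h5 PF
      rw [AlgHom.comp_apply] at h6
      rw [MvPolynomial.eval_map]
      exact h6
    rw [h4, hPF]
    have h7 : (Sum.elim (fun j => mk ℂ fun n => w n j) fun a => mk ℂ fun n => ys n a : υ ⊕ σ → Pool.Agent.Y118.UL.U ℂ) =
        fun i => mk ℂ (fun n => Sum.elim (w n) (ys n) i) := by
      funext i
      rcases i with j | a <;> rfl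
    rw [h7, eval_mk]
    congr 1
    funext n
    rw [hPP, MvPolynomial.eval_map]
    rfl
  -- the prime ideal
  let pt : (ℕ → σ → ℂ) → σ → Pool.Agent.Y118.UL.U ℂ := fun ys a => mk ℂ fun n => ys n a
  let J : Ideal (MvPolynomial (σ) F) :=
    { carrier := {q | ∀ ys : ℕ → σ → ℂ, (∀ n, ys n ∈ Y n) → MvPolynomial.aeval (pt ys) q = 0}
      add_mem' := fun {p q} hp hq ys hys => by rw [map_add, hp ys hys, hq ys hys, add_zero]
      zero_mem' := fun ys _ => map_zero _
      smul_mem' := fun c q hq ys hys => by rw [smul_eq_mul, map_mul, hq ys hys, mul_zero] }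
  have hJ : ∀ q, q ∈ J ↔ ∀ ys : ℕ → σ → ℂ, (∀ n, ys n ∈ Y n) → MvPolynomial.aeval (pt ys) q = 0 :=
    fun q => Iff.rfl
  have hrep : ∀ q : MvPolynomial (σ) F, ∃ (N : ℕ) (qs : ℕ → MvPolynomial (σ) ℂ),
      (∀ n, (qs n).totalDegree ≤ N) ∧
      ∀ ys : ℕ → σ → ℂ, MvPolynomial.aeval (pt ys) q = mk ℂ fun n => MvPolynomial.eval (ys n) (qs n) := by
    intro q
    obtain ⟨q', hq'⟩ := rep (MvPolynomial.map (algebraMap F (Pool.Agent.Y118.UL.U ℂ)) q)
    refine ⟨q'.totalDegree, fun n => MvPolynomial.map (Pi.evalRingHom (fun _ => ℂ) n) q', fun n => tdm _ _,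
      fun ys => ?_⟩
    have h4 := eval_mk q' (fun a n => ys n a)
    rw [hq', MvPolynomial.eval_map] at h4
    exact h4
  have hprime : J.IsPrime := by
    refine ⟨?_, ?_⟩
    · rw [Ideal.ne_top_iff_one]
      intro h4
      have h5 := (hJ 1).1 h4 y0 hy0
      rw [map_one] at h5
      exact one_ne_zero h5
    · intro p q hpq
      by_contra hcon
      push Not at hcon
      obtain ⟨hp, hq⟩ := hcon
      rw [hJ] at hp hq hpq
      push Not at hp hq
      obtain ⟨y1, hy1, hp1⟩ := hp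
      obtain ⟨y2, hy2, hq2⟩ := hq
      obtain ⟨N1, ps, hN1, hps⟩ := hrep p
      obtain ⟨N2, qs, hN2, hqs⟩ := hrep q
      rw [hps, mk_ne_zero] at hp1
      rw [hqs, mk_ne_zero] at hq2
      have hex : ∀ n, ∃ y ∈ Y n, (N1 + N2 ≤ n → MvPolynomial.eval (y1 n) (ps n) ≠ 0 →
          MvPolynomial.eval (y2 n) (qs n) ≠ 0 →
          MvPolynomial.eval y (ps n) * MvPolynomial.eval y (qs n) ≠ 0) := by
        intro n
        by_contra hc
        push Not at hc
        have hn := (hc _ (hy0 n)).1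
        rcases hirr n (ps n) (qs n) ((hN1 n).trans (by omega)) ((hN2 n).trans (by omega))
          (fun y hy => (hc y hy).2.2.2) with h4 | h4
        · exact (hc _ (hy0 n)).2.1 (h4 _ (hy1 n))
        · exact (hc _ (hy0 n)).2.2.1 (h4 _ (hy2 n))
      choose y3 hy3 hy3' using hex
      have h5 := hpq y3 hy3
      rw [map_mul, hps, hqs, ← map_mul, mk_eq_zero] at h5
      obtain ⟨n, ⟨h6, h7, h8⟩, h9⟩ := ((h5.and (hp1.and hq2)).and (ev_ge (N1 + N2))).exists
      exact hy3' n h9 h7 h8 h6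
  have hdom : IsDomain (MvPolynomial (σ) F ⧸ J) := Ideal.Quotient.isDomain J
  -- the algebra
  let E0 := MvPolynomial (ε) F
  let e' : ε → σ := e
  let f : E0 →+* (MvPolynomial (σ) F ⧸ J) :=
    (Ideal.Quotient.mk J).comp (MvPolynomial.rename (R := F) e').toRingHom
  have hfm : ∀ q : E0, f q = Ideal.Quotient.mk J (MvPolynomial.rename e' q) :=
    fun q => rfl
  -- the coordinates are algebraic
  have hXalg : ∀ a : σ, Alg f (Ideal.Quotient.mk J (MvPolynomial.X a)) := by
    intro s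
    let j := pp s
    let xj : F := ⟨mk ℂ (fun n => xx n j), hFalg _ (halg j)⟩
    let κ : Polynomial ℚ →+* F := Polynomial.eval₂RingHom (Rat.castHom F) xj
    have hκ : ∀ c : Polynomial ℚ, ((κ c : F) : Pool.Agent.Y118.UL.U ℂ) = mk ℂ fun n => Polynomial.aeval (xx n j) c := by
      intro c
      let r2 : Polynomial ℚ →+* (ℕ → ℂ) := RingHom.pi fun n => (Polynomial.aeval (xx n j) : Polynomial ℚ →ₐ[ℚ] ℂ).toRingHom
      have h4 : (algebraMap F (Pool.Agent.Y118.UL.U ℂ)).comp κ = (mk ℂ).comp r2 := by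
        refine Polynomial.ringHom_ext' (RingHom.ext_rat _ _) ?_
        rw [RingHom.comp_apply, RingHom.comp_apply]
        show ((κ Polynomial.X : F) : Pool.Agent.Y118.UL.U ℂ) = mk ℂ (r2 Polynomial.X)
        have h5 : κ Polynomial.X = xj := Polynomial.eval₂_X _ _
        rw [h5]
        show mk ℂ (fun n => xx n j) = mk ℂ (r2 Polynomial.X)
        congr 1
        funext n
        show _ = Polynomial.aeval (xx n j) (Polynomial.X : Polynomial ℚ)
        rw [Polynomial.aeval_X]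
      exact RingHom.congr_fun h4 c
    have hκinj : Function.Injective κ := by
      rw [injective_iff_map_eq_zero]
      intro c hc
      by_contra hc0
      have h4 := hκ c
      rw [hc] at h4
      have h5 : mk ℂ (fun n => Polynomial.aeval (xx n j) c) = 0 := h4.symm
      rw [mk_eq_zero] at h5
      obtain ⟨n, h6, h7⟩ := (h5.and (hxx c hc0 j)).exists
      exact h7 h6
    let ρ : MvPolynomial ε (Polynomial ℚ) →+* E0 := MvPolynomial.map κ
    have hρinj : Function.Injective ρ := MvPolynomial.map_injective κ hκinj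
    refine ⟨(R s).map ρ, (Polynomial.map_ne_zero_iff hρinj).2 (hR s), ?_⟩
    rw [Polynomial.eval₂_map]
    have h4 : f.comp ρ =
        (Ideal.Quotient.mk J).comp ((MvPolynomial.rename (R := F) e').toRingHom.comp ρ) := rfl
    rw [h4, ← Polynomial.hom_eval₂, Ideal.Quotient.eq_zero_iff_mem, hJ]
    intro ys hys
    have h5 := Polynomial.hom_eval₂ (R s) ((MvPolynomial.rename (R := F) e').toRingHom.comp ρ)
      (MvPolynomial.aeval (R := F) (pt ys)).toRingHom (MvPolynomial.X s)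
    refine Eq.trans h5 ?_
    let Ψ : MvPolynomial ε (Polynomial ℚ) →+* (ℕ → ℂ) := RingHom.pi fun n => spc e (xx n j) (ys n)
    have h6 : (MvPolynomial.aeval (R := F) (pt ys)).toRingHom.comp ((MvPolynomial.rename (R := F) e').toRingHom.comp ρ) =
        (mk ℂ).comp Ψ := by
      refine MvPolynomial.ringHom_ext (fun c => ?_) (fun i => ?_)
      · show MvPolynomial.aeval (pt ys) (MvPolynomial.rename e' (MvPolynomial.map κ (MvPolynomial.C c))) =
          mk ℂ (Ψ (MvPolynomial.C c))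
        rw [MvPolynomial.map_C, MvPolynomial.rename_C, MvPolynomial.aeval_C]
        refine (hκ c).trans ?_
        congr 1
        funext n
        show _ = spc e (xx n j) (ys n) (MvPolynomial.C c)
        unfold spc
        rw [MvPolynomial.eval₂Hom_C]
        rfl
      · show MvPolynomial.aeval (pt ys) (MvPolynomial.rename e' (MvPolynomial.map κ (MvPolynomial.X i))) =
          mk ℂ (Ψ (MvPolynomial.X i))
        rw [MvPolynomial.map_X, MvPolynomial.rename_X, MvPolynomial.aeval_X]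
        show mk ℂ (fun n => ys n (e i)) = _
        congr 1
        funext n
        show _ = spc e (xx n j) (ys n) (MvPolynomial.X i)
        unfold spc
        rw [MvPolynomial.eval₂Hom_X']
    rw [h6]
    have h7 : (MvPolynomial.aeval (R := F) (pt ys)).toRingHom (MvPolynomial.X s) = mk ℂ (fun n => ys n s) := by
      show MvPolynomial.aeval (pt ys) (MvPolynomial.X s) = _
      rw [MvPolynomial.aeval_X]
    rw [h7, ← Polynomial.hom_eval₂, mk_eq_zero]
    refine Eventually.of_forall fun n => ?_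
    have h8 := Polynomial.hom_eval₂ (R s) Ψ (Pi.evalRingHom (fun _ => ℂ) n) (fun n => ys n s)
    refine Eq.trans h8 ?_
    exact hrel n (ys n) (hys n) s
  have hall : ∀ q : MvPolynomial (σ) F, Alg f (Ideal.Quotient.mk J q) := by
    intro q
    induction q using MvPolynomial.induction_on with
    | C a =>
      have h4 : Ideal.Quotient.mk J (MvPolynomial.C a) = f (MvPolynomial.C a) := by
        rw [hfm, MvPolynomial.rename_C]
      rw [h4]
      exact Alg.map (E := E0) (A := MvPolynomial (σ) F ⧸ J) f _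
    | add p q hp hq =>
      rw [map_add]
      exact Alg.add (E := E0) (A := MvPolynomial (σ) F ⧸ J) f hp hq
    | mul_X p a hp =>
      rw [map_mul]
      exact Alg.mul (E := E0) (A := MvPolynomial (σ) F ⧸ J) f hp (hXalg a)
  have hQJ : Ideal.Quotient.mk J Q ≠ 0 := by
    intro h4
    rw [Ideal.Quotient.eq_zero_iff_mem, hJ] at h4
    have h5 := h4 y0 hy0
    have h6 : pt y0 = fun a => mk ℂ fun n => y0 n a := rfl
    rw [h6, hQ, mk_eq_zero] at h5
    obtain ⟨n, h7⟩ := h5.exists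
    exact hPy n h7
  obtain ⟨r, hr0, hrd⟩ := Alg.dvd (E := E0) (A := MvPolynomial (σ) F ⧸ J) f (hall Q) hQJ
  -- evaluation at the point
  let yv : ℕ → σ → ℂ := zp
  let θ : (MvPolynomial (σ) F ⧸ J) →+* Pool.Agent.Y118.UL.U ℂ :=
    Ideal.Quotient.lift J (MvPolynomial.aeval (R := F) (pt yv)).toRingHom fun q hq => (hJ q).1 hq yv hmem
  have h4 : θ (Ideal.Quotient.mk J Q) = 0 := by
    show MvPolynomial.aeval (pt yv) Q = 0
    have h6 : pt yv = fun a => mk ℂ fun n => yv n a := rfl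
    rw [h6, hQ, mk_eq_zero]
    exact Eventually.of_forall fun n => hP0 n
  have h5 : θ (f r) = 0 := by
    obtain ⟨u, hu⟩ := hrd
    rw [hu, map_mul, h4, zero_mul]
  have h6 : MvPolynomial.aeval z r = 0 := by
    rw [← h5, hfm]
    show _ = MvPolynomial.aeval (pt yv) (MvPolynomial.rename e' r)
    rw [MvPolynomial.aeval_rename]
    rfl
  exact hr0 ((algebraicIndependent_iff.1 h3) r h6)


/-- relations between all coordinates of a point of an irreducible set give relations between the free coordinates -/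
theorem brG {k : ℕ} (σ ε : Type) [Fintype σ] (e : ε → σ) (pp : σ → Fin k)
    (R : σ → Polynomial (MvPolynomial ε (Polynomial ℚ))) (hR : ∀ s, R s ≠ 0) (m d δ D : ℕ) :
    ∃ (δ' : ℕ) (c : Polynomial ℚ), c ≠ 0 ∧ ∀ (x : Fin k → ℂ) (y₀ : σ → ℂ) (Y : Set (σ → ℂ)) (K : IntermediateField ℚ ℂ)
    (w : Fin D → ℂ) (P : MvPolynomial (Fin D ⊕ σ) K),
    (∀ j, ∃ K₁ : IntermediateField ℚ ℂ, FiniteDimensional ℚ K₁ ∧ finrank ℚ K₁ ≤ m ∧ x j ∈ K₁) →
    (∀ j, Polynomial.aeval (x j) c ≠ 0) → IrrD δ' Y → y₀ ∈ Y →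
    (∀ y ∈ Y, ∀ s, Polynomial.eval₂ (spc e (x (pp s)) y) (y s) (R s) = 0) →
    FiniteDimensional ℚ K → finrank ℚ K ≤ d → P.totalDegree ≤ δ → MvPolynomial.aeval (Sum.elim w y₀) P = 0 →
    (∃ y ∈ Y, MvPolynomial.aeval (Sum.elim w y) P ≠ 0) →
    ∃ Q : MvPolynomial (Fin D ⊕ ε) ℚ, Q.totalDegree ≤ δ' ∧
      MvPolynomial.aeval (Sum.elim w fun p : ε => y₀ (e p)) Q = 0 ∧
      (MvPolynomial.aeval (Sum.elim (fun j => MvPolynomial.C (w j)) MvPolynomial.X) Q : MvPolynomial ε ℂ) ≠ 0 := by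
  classical
  obtain ⟨c, hc1, hc2⟩ := exists_cseq
  by_contra hcon
  push Not at hcon
  choose x y₀ Y K w P h1 h2 h3 h4 h5 h6 h7 h8 h9 h10 h11 using fun n => hcon n (c n) (hc1 n)
  choose K₁ k1 k2 k3 using h1
  choose y hy1 hy2 using h10
  obtain ⟨a, ha⟩ := depG σ ε (Fin D) e k pp R hR x
    (fun j => alg_of_degree (D := m) (fun n => K₁ n j) (fun n => k1 n j) (fun n => k2 n j) _ fun n => k3 n j)
    (by
      intro q hq j
      obtain ⟨N, hN⟩ := hc2 q hq
      filter_upwards [ev_ge N] with n hn h0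
      obtain ⟨u, hu⟩ := hN n hn
      apply h2 n j
      rw [hu, map_mul, h0, zero_mul])
    w Y h3 y₀ h4 h5 d δ K h6 h7 P h8 h9 y hy1 hy2
  obtain ⟨F, hF1, hF2⟩ := rel_of_cl (fun j : Fin D => mk ℂ fun n => w n j)
    (fun b : ε => mk ℂ fun n => y₀ n (e b)) a ha
  obtain ⟨δ₀, hδ⟩ := rel_seq w (fun n (b : ε) => y₀ n (e b)) F hF1 hF2
  obtain ⟨n, ⟨Q, q1, q2, q3⟩, hn⟩ := (hδ.and (ev_ge δ₀)).exists
  exact q3 (h11 n Q (q1.trans hn) q2)

end Pool.Agent.NH25.AP
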