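import Pool.Agent.NH25.AP.TupG
import Pool.Agent.Y123.GN.E8
import Pool.Agent.Y120.R.Ac
import Pool.Agent.Y120.A.Gf

/-!
# Period matrices of families near a point of good reduction or unipotent degeneration: continuation of relations
-/

set_option autoImplicit false

open Matrix Module PowerSeries Filter Topology

namespace Pool.Agent.NH25.AP

open Pool.Agent.Y916.Al Pool.Agent.Y120.GH

section

variable {n : ℕ}

/-- the power series at `1 / z` as a matrix -/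
noncomputable def Hm (H : Matrix (Fin n) (Fin n) ℚ⟦X⟧) (z : ℂ) : Matrix (Fin n) (Fin n) ℂ :=
  Matrix.of fun i j => evc (1 / z) (H i j)

/-- the matrix `exp (-ℓ N)` -/
noncomputable def eN (N : Matrix (Fin n) (Fin n) ℤ) (ℓ : ℂ) : Matrix (Fin n) (Fin n) ℂ :=
  ∑ q ∈ Finset.range (n + 1), ((-ℓ) ^ q / (q.factorial : ℂ)) • (N ^ q).map (Int.cast : ℤ → ℂ)

/-- the period matrix -/
noncomputable def pC (N : Matrix (Fin n) (Fin n) ℤ) (H : Matrix (Fin n) (Fin n) ℚ⟦X⟧) (Ω : Matrix (Fin n) (Fin n) ℂ)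
    (z ℓ : ℂ) : Matrix (Fin n) (Fin n) ℂ := Ω * eN N ℓ * Hm H z

/-- the value of a relation -/
noncomputable def relL (R : MvPolynomial (Option (Fin n × Fin n)) (Polynomial ℂ)) (x ℓ : ℂ) (Z : Matrix (Fin n) (Fin n) ℂ) : ℂ :=
  MvPolynomial.eval₂ (Polynomial.evalRingHom x) (fun o => o.elim ℓ fun v => Z v.1 v.2) R

/-- `g` preserves the relations -/
def PrsL (N : Matrix (Fin n) (Fin n) ℤ) (H : Matrix (Fin n) (Fin n) ℚ⟦X⟧) (Ω g : Matrix (Fin n) (Fin n) ℂ) : Prop :=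
  ∀ R : MvPolynomial (Option (Fin n × Fin n)) (Polynomial ℂ),
    (∀ᶠ s : ℝ in atTop, relL R (1 / (s : ℂ)) ((Real.log s : ℝ) : ℂ) (pC N H Ω s ((Real.log s : ℝ) : ℂ)) = 0) →
    ∀ᶠ s : ℝ in atTop, relL R (1 / (s : ℂ)) ((Real.log s : ℝ) : ℂ) (g * pC N H Ω s ((Real.log s : ℝ) : ℂ)) = 0

theorem relL_add (R R' : MvPolynomial (Option (Fin n × Fin n)) (Polynomial ℂ)) (x ℓ : ℂ) (Z : Matrix (Fin n) (Fin n) ℂ) :
    relL (R + R') x ℓ Z = relL R x ℓ Z + relL R' x ℓ Z := by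
  unfold relL
  rw [MvPolynomial.eval₂_add]

/-- `eN` by polynomials: exponential -/
theorem eN_exp {N : Matrix (Fin n) (Fin n) ℤ} (hN : N ^ n = 0) (ℓ : ℂ) :
    eN N ℓ = IsNilpotent.exp ((-ℓ) • N.map (Int.cast : ℤ → ℂ)) := by
  have hpow : ∀ q : ℕ, (N ^ q).map (Int.cast : ℤ → ℂ) = (N.map (Int.cast : ℤ → ℂ)) ^ q := by
    intro q
    have h1 := map_pow (RingHom.mapMatrix (m := Fin n) (Int.castRingHom ℂ)) N q
    exact h1
  have h0 : ((-ℓ) • N.map (Int.cast : ℤ → ℂ)) ^ (n + 1) = 0 := by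
    rw [smul_pow, ← hpow, pow_succ N n, hN, Matrix.zero_mul]
    ext i j
    simp
  rw [IsNilpotent.exp_eq_sum h0]
  unfold eN
  refine Finset.sum_congr rfl fun q _ => ?_
  rw [smul_pow, ← hpow]
  ext i j
  rw [Matrix.smul_apply, Matrix.smul_apply, Matrix.smul_apply, smul_eq_mul, smul_eq_mul, Rat.smul_def]
  push_cast
  ring

theorem eN_mul {N : Matrix (Fin n) (Fin n) ℤ} (hN : N ^ n = 0) (ℓ : ℂ) : eN N ℓ * eN N (-ℓ) = 1 := by
  rw [eN_exp hN, eN_exp hN]
  have hnil : IsNilpotent (N.map (Int.cast : ℤ → ℂ)) := by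
    refine ⟨n, ?_⟩
    have h1 := map_pow (RingHom.mapMatrix (m := Fin n) (Int.castRingHom ℂ)) N n
    rw [hN, map_zero] at h1
    exact h1.symm
  have h2 := Pool.Agent.Y123.GN.exp_inv hnil (-ℓ)
  exact h2

/-- the functions are analytic in the logarithm -/
theorem pC_an {N : Matrix (Fin n) (Fin n) ℤ} {H : Matrix (Fin n) (Fin n) ℚ⟦X⟧} {C : ℝ} (hC : 0 ≤ C)
    (hh : ∀ i j m, |((coeff m (H i j) : ℚ) : ℝ)| ≤ C ^ (m + 1)) (Ω : Matrix (Fin n) (Fin n) ℂ) {ℓ : ℂ}
    (hℓ : C < Real.exp ℓ.re) (a b : Fin n) : AnalyticAt ℂ (fun ℓ => pC N H Ω (Complex.exp ℓ) ℓ a b) ℓ := by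
  have hH : ∀ i j, AnalyticAt ℂ (fun ℓ => Hm H (Complex.exp ℓ) i j) ℓ := by
    intro i j
    have h1 : AnalyticAt ℂ (fun z => evc (1 / z) (H i j)) (Complex.exp ℓ) := by
      have h2 := ou_an hC (cx_mem hC (hh i j)) (Complex.exp ℓ) (by
        show C < ‖Complex.exp ℓ‖
        rw [Complex.norm_exp]
        exact hℓ)
      have h3 : ou (cx (H i j)) = fun z => evc (1 / z) (H i j) := by
        funext z
        unfold ou inn evc
        refine tsum_congr fun m => ?_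
        rw [coeff_cx]
      rw [h3] at h2
      exact h2
    exact h1.comp (Complex.differentiable_exp.analyticAt ℓ)
  have hE : ∀ i j, AnalyticAt ℂ (fun ℓ => eN N ℓ i j) ℓ := by
    intro i j
    have h1 : (fun ℓ => eN N ℓ i j) = fun ℓ => ∑ q ∈ Finset.range (n + 1), ((-ℓ) ^ q / (q.factorial : ℂ)) *
        ((N ^ q) i j : ℂ) := by
      funext ℓ
      unfold eN
      rw [Matrix.sum_apply]
      rfl
    rw [h1]
    have h2 : Differentiable ℂ (fun ℓ : ℂ => ∑ q ∈ Finset.range (n + 1), ((-ℓ) ^ q / (q.factorial : ℂ)) *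
        ((N ^ q) i j : ℂ)) := by
      fun_prop
    exact h2.analyticAt ℓ
  have h1 : (fun ℓ => pC N H Ω (Complex.exp ℓ) ℓ a b) = fun ℓ => ∑ j, (∑ i, Ω a i * eN N ℓ i j) *
      Hm H (Complex.exp ℓ) j b := by
    funext ℓ
    unfold pC
    rw [Matrix.mul_apply]
    refine Finset.sum_congr rfl fun j _ => ?_
    rw [Matrix.mul_apply]
  rw [h1]
  refine Finset.analyticAt_fun_sum _ fun j _ => ?_
  exact (Finset.analyticAt_fun_sum _ fun i _ => analyticAt_const.mul (hE i j)).mul (hH j b)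

/-- the relations are analytic in the logarithm -/
theorem relL_an {U : ℂ} {Z : ℂ → Matrix (Fin n) (Fin n) ℂ} (hZ : ∀ a b, AnalyticAt ℂ (fun ℓ => Z ℓ a b) U)
    (R : MvPolynomial (Option (Fin n × Fin n)) (Polynomial ℂ)) :
    AnalyticAt ℂ (fun ℓ => relL R (Complex.exp (-ℓ)) ℓ (Z ℓ)) U := by
  have hq : ∀ o : Option (Fin n × Fin n), AnalyticAt ℂ (fun ℓ : ℂ => (o.elim ℓ fun v => Z ℓ v.1 v.2 : ℂ)) U := by
    intro o
    rcases o with _ | v
    · exact analyticAt_id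
    · exact hZ v.1 v.2
  have hx : AnalyticAt ℂ (fun ℓ : ℂ => Complex.exp (-ℓ)) U := by
    have h1 : Differentiable ℂ (fun ℓ : ℂ => Complex.exp (-ℓ)) := by fun_prop
    exact h1.analyticAt U
  induction R using MvPolynomial.induction_on with
  | C a =>
    have h1 : (fun ℓ => relL (MvPolynomial.C a) (Complex.exp (-ℓ)) ℓ (Z ℓ)) =
        fun ℓ => Polynomial.aeval (Complex.exp (-ℓ)) a := by
      funext w
      unfold relL
      rw [MvPolynomial.eval₂_C, Polynomial.coe_evalRingHom, Polynomial.coe_aeval_eq_eval]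
    rw [h1]
    exact AnalyticAt.aeval_polynomial hx a
  | add p p' hp hp' =>
    simp only [relL_add]
    exact hp.add hp'
  | mul_X p v hp =>
    have h1 : (fun ℓ => relL (p * MvPolynomial.X v) (Complex.exp (-ℓ)) ℓ (Z ℓ)) =
        fun ℓ => relL p (Complex.exp (-ℓ)) ℓ (Z ℓ) * (v.elim ℓ fun v => Z ℓ v.1 v.2) := by
      funext w
      unfold relL
      rw [MvPolynomial.eval₂_mul, MvPolynomial.eval₂_X]
    rw [h1]
    exact hp.mul (hq v)

/-- **continuation of relations** -/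
theorem cont {N : Matrix (Fin n) (Fin n) ℤ} {H : Matrix (Fin n) (Fin n) ℚ⟦X⟧} {C : ℝ} (hC : 0 ≤ C)
    (hh : ∀ i j m, |((coeff m (H i j) : ℚ) : ℝ)| ≤ C ^ (m + 1)) (Ω g : Matrix (Fin n) (Fin n) ℂ)
    (R : MvPolynomial (Option (Fin n × Fin n)) (Polynomial ℂ))
    (h0 : ∀ᶠ s : ℝ in atTop, relL R (1 / (s : ℂ)) ((Real.log s : ℝ) : ℂ) (g * pC N H Ω s ((Real.log s : ℝ) : ℂ)) = 0)
    {z ℓ : ℂ} (hz : Complex.exp ℓ = z) (hs : C < ‖z‖) : relL R (1 / z) ℓ (g * pC N H Ω z ℓ) = 0 := by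
  set F : ℂ → ℂ := fun ℓ => relL R (Complex.exp (-ℓ)) ℓ (g * pC N H Ω (Complex.exp ℓ) ℓ) with hF
  obtain ⟨S, hS⟩ := eventually_atTop.1 h0
  set U : Set ℂ := {ℓ | Real.log (C + 1) < ℓ.re ∨ C < Real.exp ℓ.re} with hU
  have hU' : U = {ℓ | C < Real.exp ℓ.re} := by
    ext w
    constructor
    · rintro (h | h)
      · have h1 : C + 1 < Real.exp w.re := (Real.log_lt_iff_lt_exp (by linarith)).1 h
        show C < Real.exp w.re
        linarith
      · exact h
    · exact fun h => Or.inr h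
  have hconn : IsPreconnected U := by
    rw [hU']
    rcases hC.eq_or_lt with h | h
    · rw [← h]
      have h1 : {ℓ : ℂ | 0 < Real.exp ℓ.re} = Set.univ := Set.eq_univ_of_forall fun ℓ => Real.exp_pos _
      rw [h1]
      exact isPreconnected_univ
    · have h1 : {ℓ : ℂ | C < Real.exp ℓ.re} = {ℓ : ℂ | Real.log C < ℓ.re} := by
        ext w
        exact (Real.log_lt_iff_lt_exp h).symm
      rw [h1]
      exact (convex_halfSpace_re_gt _).isPreconnected
  have han : AnalyticOnNhd ℂ F U := by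
    intro w hw
    rw [hU'] at hw
    refine relL_an (Z := fun ℓ => g * pC N H Ω (Complex.exp ℓ) ℓ) (fun a b => ?_) R
    have h1 : (fun ℓ => (g * pC N H Ω (Complex.exp ℓ) ℓ) a b) = fun ℓ => ∑ j, g a j * pC N H Ω (Complex.exp ℓ) ℓ j b := by
      funext ℓ
      rw [Matrix.mul_apply]
    rw [h1]
    exact Finset.analyticAt_fun_sum _ fun j _ => analyticAt_const.mul (pC_an hC hh Ω hw j b)
  set t₀ : ℝ := Real.log (max S (C + 1) + 1) with ht₀
  have hpos : 0 < max S (C + 1) + 1 := by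
    have := le_max_right S (C + 1)
    linarith
  have hzero : ∀ t : ℝ, t₀ ≤ t → F (t : ℂ) = 0 := by
    intro t ht
    have h1 : max S (C + 1) + 1 ≤ Real.exp t := by
      rw [← Real.exp_log hpos]
      exact Real.exp_le_exp.2 ht
    have h2 := hS (Real.exp t) (by
      have := le_max_left S (C + 1)
      linarith)
    rw [Real.log_exp] at h2
    rw [hF]
    show relL R (Complex.exp (-(t : ℂ))) t (g * pC N H Ω (Complex.exp t) t) = 0
    have h3 : Complex.exp (t : ℂ) = ((Real.exp t : ℝ) : ℂ) := (Complex.ofReal_exp t).symm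
    rw [Complex.exp_neg, h3, ← one_div]
    exact h2
  have hfreq : ∃ᶠ z in 𝓝[≠] (t₀ : ℂ), F z = 0 := by
    let u : ℕ → ℂ := fun n => ((t₀ + 1 / ((n : ℝ) + 1) : ℝ) : ℂ)
    have hu : Tendsto u atTop (𝓝[≠] (t₀ : ℂ)) := by
      rw [tendsto_nhdsWithin_iff]
      refine ⟨?_, Eventually.of_forall fun n => ?_⟩
      · have h1 : Tendsto (fun n : ℕ => (t₀ + 1 / ((n : ℝ) + 1) : ℝ)) atTop (𝓝 (t₀ + 0)) :=
          tendsto_const_nhds.add tendsto_one_div_add_atTop_nhds_zero_nat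
        rw [add_zero] at h1
        exact (Complex.continuous_ofReal.tendsto _).comp h1
      · show u n ≠ (t₀ : ℂ)
        intro h1
        have h2 : (t₀ + 1 / ((n : ℝ) + 1) : ℝ) = t₀ := Complex.ofReal_injective h1
        have h3 : (0 : ℝ) < 1 / ((n : ℝ) + 1) := by positivity
        linarith
    refine hu.frequently (Eventually.frequently (Eventually.of_forall fun n => ?_))
    refine hzero _ ?_
    have h3 : (0 : ℝ) < 1 / ((n : ℝ) + 1) := by positivity
    linarith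
  have ht₀U : (t₀ : ℂ) ∈ U := by
    right
    rw [Complex.ofReal_re, ht₀, Real.exp_log hpos]
    have := le_max_right S (C + 1)
    linarith
  have h1 := han.eqOn_zero_of_preconnected_of_frequently_eq_zero hconn ht₀U hfreq
  have h2 : F ℓ = 0 := h1 (Or.inr (by
    rw [← Complex.norm_exp, hz]
    exact hs))
  rw [hF] at h2
  have h3 : relL R (Complex.exp (-ℓ)) ℓ (g * pC N H Ω (Complex.exp ℓ) ℓ) = 0 := h2
  rw [Complex.exp_neg, hz, ← one_div] at h3
  exact h3

end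

end Pool.Agent.NH25.AP
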