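import Pool.Agent.NH25.AP.Crv

/-!
# Relations of period matrices at algebraic points and the unipotent elements of the Galois groups
-/

set_option autoImplicit false
set_option linter.unusedSectionVars false

open Matrix Module PowerSeries Filter Topology

namespace Pool.Agent.NH25.AP

open Pool.Agent.Y916.Al Pool.Agent.Y916.Af Pool.Agent.Y119.HZ Pool.Agent.Y118.UL
open Pool.Agent.TH127.PT Pool.Agent.Y123.ST Pool.Agent.Y123.GN
open Pool.Agent.Y113 hiding ix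

theorem prod_powE {ι σ : Type} {W : Submodule ℚ ℂ} {d : ℕ} (s : Finset ι) (L : ι → MvPolynomial σ ℂ)
    (hL : ∀ i, DC d W (L i)) (e : ι → ℕ) : DC (d * ∑ i ∈ s, e i) (W ^ (∑ i ∈ s, e i)) (∏ i ∈ s, L i ^ e i) := by
  classical
  induction s using Finset.induction_on with
  | empty =>
    simp only [Finset.sum_empty, Finset.prod_empty, pow_zero, mul_zero]
    exact DC.one _ (Submodule.one_le.1 le_rfl)
  | insert a s ha ih =>
    rw [Finset.prod_insert ha, Finset.sum_insert ha, pow_add, mul_add]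
    exact ((hL a).pow (e a)).mul ih

/-- a substitution -/
theorem substE {ι τ : Type} [Fintype ι] {m d : ℕ} {V W : Submodule ℚ ℂ} (h1 : (1 : ℂ) ∈ W) (L : ι → MvPolynomial τ ℂ)
    (hL : ∀ i, DC d W (L i)) {P : MvPolynomial ι ℂ} (hP : DC m V P) :
    DC (d * m) (V * W ^ m) (MvPolynomial.aeval L P) := by
  classical
  rw [MvPolynomial.aeval_def, MvPolynomial.eval₂_eq']
  refine DC.sum _ fun s hs => ?_
  have hs' : ∑ i, s i ≤ m := by
    have h2 := MvPolynomial.le_totalDegree hs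
    have h3 : (s.sum fun _ e => e) = ∑ i, s i := by
      rw [Finsupp.sum_fintype]
      simp
    rw [h3] at h2
    exact h2.trans hP.1
  have h2 : DC 0 V (MvPolynomial.C (MvPolynomial.coeff s P) : MvPolynomial τ ℂ) := by
    refine ⟨by simp, fun t => ?_⟩
    rw [MvPolynomial.coeff_C]
    split_ifs
    · exact hP.2 s
    · exact Submodule.zero_mem _
  have h3 := h2.mul (prod_powE Finset.univ L hL s)
  rw [zero_add] at h3
  refine h3.mono (Nat.mul_le_mul_left d hs') ?_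
  exact Submodule.mul_le.2 fun a ha b hb => Submodule.mul_mem_mul ha (pow_mono_sub h1 hs' hb)

section one

variable {n : ℕ}

/-- the substitution `Z ↦ g Z` in a relation -/
noncomputable def subL (g : Matrix (Fin n) (Fin n) ℂ) (R : MvPolynomial (Option (Fin n × Fin n)) (Polynomial ℂ)) :
    MvPolynomial (Option (Fin n × Fin n)) (Polynomial ℂ) :=
  MvPolynomial.aeval (fun o : Option (Fin n × Fin n) => o.elim (MvPolynomial.X none)
    fun v => ∑ l, MvPolynomial.C (Polynomial.C (g v.1 l)) * MvPolynomial.X (some (l, v.2))) R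

theorem subL_eval (g : Matrix (Fin n) (Fin n) ℂ) (R : MvPolynomial (Option (Fin n × Fin n)) (Polynomial ℂ)) (x ℓ : ℂ)
    (Z : Matrix (Fin n) (Fin n) ℂ) : relL (subL g R) x ℓ Z = relL R x ℓ (g * Z) := by
  unfold subL
  induction R using MvPolynomial.induction_on with
  | C a =>
    rw [MvPolynomial.aeval_C]
    unfold relL
    rw [MvPolynomial.algebraMap_eq, MvPolynomial.eval₂_C, MvPolynomial.eval₂_C]
  | add p q hp hq => rw [map_add, relL_add, relL_add, hp, hq]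
  | mul_X p v hp =>
    rw [map_mul, MvPolynomial.aeval_X]
    unfold relL at hp ⊢
    rw [MvPolynomial.eval₂_mul, MvPolynomial.eval₂_mul, hp, MvPolynomial.eval₂_X]
    congr 1
    rcases v with _ | v
    · show MvPolynomial.eval₂ _ _ (MvPolynomial.X none) = ℓ
      rw [MvPolynomial.eval₂_X]
      rfl
    · show MvPolynomial.eval₂ _ _ (∑ l, MvPolynomial.C (Polynomial.C (g v.1 l)) * MvPolynomial.X (some (l, v.2))) =
        (g * Z) v.1 v.2
      rw [MvPolynomial.eval₂_sum, Matrix.mul_apply]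
      refine Finset.sum_congr rfl fun l _ => ?_
      rw [MvPolynomial.eval₂_mul, MvPolynomial.eval₂_C, MvPolynomial.eval₂_X, Polynomial.coe_evalRingHom,
        Polynomial.eval_C]
      rfl

theorem PrsL.mul {N : Matrix (Fin n) (Fin n) ℤ} {H : Matrix (Fin n) (Fin n) ℚ⟦X⟧} {Ω g g' : Matrix (Fin n) (Fin n) ℂ}
    (hg : PrsL N H Ω g) (hg' : PrsL N H Ω g') : PrsL N H Ω (g * g') := by
  intro R hR
  have h1 := hg' (subL g R) (by
    filter_upwards [hg R hR] with s hs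
    rw [subL_eval]
    exact hs)
  filter_upwards [h1] with s hs
  rw [subL_eval, ← Matrix.mul_assoc] at hs
  exact hs

/-- the group of the matrices which preserve the relations with the logarithm -/
noncomputable def Gl (N : Matrix (Fin n) (Fin n) ℤ) (H : Matrix (Fin n) (Fin n) ℚ⟦X⟧) (Ω : Matrix (Fin n) (Fin n) ℂ) :
    Subgroup (Matrix (Fin n) (Fin n) ℂ)ˣ where
  carrier := {g | PrsL N H Ω (g : Matrix (Fin n) (Fin n) ℂ) ∧
    PrsL N H Ω ((g⁻¹ : (Matrix (Fin n) (Fin n) ℂ)ˣ) : Matrix (Fin n) (Fin n) ℂ)}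
  mul_mem' := by
    rintro g g' ⟨h1, h2⟩ ⟨h3, h4⟩
    refine ⟨?_, ?_⟩
    · rw [Units.val_mul]
      exact h1.mul h3
    · rw [_root_.mul_inv_rev, Units.val_mul]
      exact h4.mul h2
  one_mem' := by
    refine ⟨?_, ?_⟩
    · intro R hR
      rw [Units.val_one]
      simpa only [Matrix.one_mul] using hR
    · intro R hR
      rw [inv_one, Units.val_one]
      simpa only [Matrix.one_mul] using hR
  inv_mem' := by
    rintro g ⟨h1, h2⟩
    refine ⟨h2, ?_⟩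
    rw [inv_inv]
    exact h1

end one

section many

variable {k : ℕ} {n : Fin k → ℕ} {B₀ : Type} [Fintype B₀] [DecidableEq B₀]

/-- the coordinates: the logarithms and the entries -/
abbrev Kx (n : Fin k → ℕ) : Type := Σ i, Option (Fin (n i * n i))

/-- the generic period matrices -/
noncomputable def blkM (N : ∀ i, Matrix (Fin (n i)) (Fin (n i)) ℤ) (Ω : ∀ i, Matrix (Fin (n i)) (Fin (n i)) ℂ) (i : Fin k) :
    Matrix (Fin (n i)) (Fin (n i)) (MvPolynomial (Kx n) ℂ) :=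
  (Ω i).map MvPolynomial.C * eNg (N i) (MvPolynomial.X (⟨i, none⟩ : Kx n)) *
    Matrix.of fun a b => MvPolynomial.X (⟨i, some ((ix (n i)).symm (b, a))⟩ : Kx n)

theorem blkM_DC {N : ∀ i, Matrix (Fin (n i)) (Fin (n i)) ℤ} {Ω : ∀ i, Matrix (Fin (n i)) (Fin (n i)) ℂ}
    {W : Submodule ℚ ℂ} (hΩ : ∀ i a b, Ω i a b ∈ W) {e : ℕ} (he : ∀ i, n i + 1 ≤ e) (i : Fin k) (a b : Fin (n i)) :
    DC e W (blkM N Ω i a b) := by
  classical
  unfold blkM
  rw [Matrix.mul_apply]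
  refine DC.sum _ fun c _ => ?_
  have hX : ∀ v : Kx n, DC 1 (1 : Submodule ℚ ℂ) (MvPolynomial.X v : MvPolynomial (Kx n) ℂ) := fun v =>
    DCX (Submodule.one_le.1 le_rfl) v
  have hE : ∀ c d : Fin (n i), DC (n i) (1 : Submodule ℚ ℂ)
      (eNg (N i) (MvPolynomial.X (⟨i, none⟩ : Kx n) : MvPolynomial (Kx n) ℂ) c d) := by
    intro c d
    show DC (n i) (1 : Submodule ℚ ℂ) (∑ q ∈ Finset.range (n i + 1), algebraMap ℚ (MvPolynomial (Kx n) ℂ)
      (((N i ^ q) c d : ℚ) / q.factorial) * (-(MvPolynomial.X (⟨i, none⟩ : Kx n))) ^ q)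
    refine DC.sum _ fun q hq => ?_
    have h1 : DC 0 (1 : Submodule ℚ ℂ)
        (algebraMap ℚ (MvPolynomial (Kx n) ℂ) (((N i ^ q) c d : ℚ) / q.factorial)) := by
      have h2 : algebraMap ℚ (MvPolynomial (Kx n) ℂ) (((N i ^ q) c d : ℚ) / q.factorial) =
        MvPolynomial.C (((((N i ^ q) c d : ℚ) / q.factorial : ℚ)) : ℂ) := by
        rw [IsScalarTower.algebraMap_apply ℚ ℂ (MvPolynomial (Kx n) ℂ), MvPolynomial.algebraMap_eq, eq_ratCast]
      rw [h2]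
      refine ⟨by simp, fun t => ?_⟩
      rw [MvPolynomial.coeff_C]
      split_ifs
      · rw [Submodule.mem_one]
        exact ⟨_, eq_ratCast _ _⟩
      · exact Submodule.zero_mem _
    have h3 : DC 1 (1 : Submodule ℚ ℂ) (-(MvPolynomial.X (⟨i, none⟩ : Kx n)) : MvPolynomial (Kx n) ℂ) := by
      refine ⟨by rw [MvPolynomial.totalDegree_neg]; exact (hX _).1, fun t => ?_⟩
      rw [MvPolynomial.coeff_neg]
      exact Submodule.neg_mem _ ((hX _).2 t)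
    have h4 := h1.mul (h3.pow q)
    rw [one_pow, one_mul, zero_add, one_mul] at h4
    exact h4.mono (by have := Finset.mem_range.1 hq; omega) le_rfl
  have h1 : DC (n i) W (((Ω i).map MvPolynomial.C * eNg (N i) (MvPolynomial.X (⟨i, none⟩ : Kx n)) :
      Matrix (Fin (n i)) (Fin (n i)) (MvPolynomial (Kx n) ℂ)) a c) := by
    rw [Matrix.mul_apply]
    refine DC.sum _ fun d _ => ?_
    have h2 : DC 0 W (MvPolynomial.C (Ω i a d) : MvPolynomial (Kx n) ℂ) := by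
      refine ⟨by simp, fun t => ?_⟩
      rw [MvPolynomial.coeff_C]
      split_ifs
      · exact hΩ i a d
      · exact Submodule.zero_mem _
    have h3 := h2.mul (hE d c)
    rw [zero_add, mul_one] at h3
    exact h3
  have h5 := h1.mul (hX (⟨i, some ((ix (n i)).symm (b, c))⟩ : Kx n))
  rw [mul_one] at h5
  exact h5.mono (he i) le_rfl

theorem blkM_eval (N : ∀ i, Matrix (Fin (n i)) (Fin (n i)) ℤ) (Ω : ∀ i, Matrix (Fin (n i)) (Fin (n i)) ℂ)
    (y : Kx n → ℂ) (i : Fin k) (a b : Fin (n i)) : MvPolynomial.aeval y (blkM N Ω i a b) =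
      (Ω i * eN (N i) (y ⟨i, none⟩) * Matrix.of fun a b => y ⟨i, some ((ix (n i)).symm (b, a))⟩) a b := by
  unfold blkM
  rw [Matrix.mul_apply, Matrix.mul_apply, map_sum]
  refine Finset.sum_congr rfl fun c _ => ?_
  rw [map_mul, Matrix.mul_apply, Matrix.mul_apply, map_sum]
  congr 1
  · refine Finset.sum_congr rfl fun d _ => ?_
    rw [map_mul]
    congr 1
    · rw [Matrix.map_apply, MvPolynomial.aeval_C]
      rfl
    · have h1 := eNg_map (MvPolynomial.aeval y : MvPolynomial (Kx n) ℂ →ₐ[ℂ] ℂ).toRingHom (N i)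
        (MvPolynomial.X (⟨i, none⟩ : Kx n)) d c
      refine h1.trans ?_
      rw [eNg_C]
      have h2 : (MvPolynomial.aeval y : MvPolynomial (Kx n) ℂ →ₐ[ℂ] ℂ).toRingHom (MvPolynomial.X (⟨i, none⟩ : Kx n)) =
        y ⟨i, none⟩ := MvPolynomial.aeval_X y _
      rw [h2]
  · show MvPolynomial.aeval y (MvPolynomial.X _) = _
    rw [MvPolynomial.aeval_X]
    rfl

/-- the curve of points -/
noncomputable def Gc (N : ∀ i, Matrix (Fin (n i)) (Fin (n i)) ℤ) (Ω : ∀ i, Matrix (Fin (n i)) (Fin (n i)) ℂ)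
    (ℓ : Fin k → ℂ) (pp : ∀ i, Matrix (Fin (n i)) (Fin (n i)) ℂ) (γ : ∀ i, Matrix (Fin (n i)) (Fin (n i)) (Polynomial ℂ))
    (c : Kx n) : Polynomial ℂ := c.2.elim (Polynomial.C (ℓ c.1)) fun a =>
    ((eN (N c.1) (-ℓ c.1) * (Ω c.1)⁻¹).map Polynomial.C * (γ c.1 * (pp c.1).map Polynomial.C)) (ix (n c.1) a).2
      (ix (n c.1) a).1

theorem Gc_some (N : ∀ i, Matrix (Fin (n i)) (Fin (n i)) ℤ) (Ω : ∀ i, Matrix (Fin (n i)) (Fin (n i)) ℂ)
    (ℓ : Fin k → ℂ) (pp : ∀ i, Matrix (Fin (n i)) (Fin (n i)) ℂ) (γ : ∀ i, Matrix (Fin (n i)) (Fin (n i)) (Polynomial ℂ))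
    (s : ℂ) (i : Fin k) (a : Fin (n i * n i)) : (Gc N Ω ℓ pp γ ⟨i, some a⟩).eval s =
      yM (eN (N i) (-ℓ i) * (Ω i)⁻¹ * (Pool.Agent.Y123.GN.ev s (γ i) * pp i)) a := by
  have h5 : Pool.Agent.Y123.GN.ev s ((eN (N i) (-ℓ i) * (Ω i)⁻¹).map Polynomial.C * (γ i * (pp i).map Polynomial.C)) =
      eN (N i) (-ℓ i) * (Ω i)⁻¹ * (Pool.Agent.Y123.GN.ev s (γ i) * pp i) := by
    rw [Pool.Agent.Y123.GN.ev_mul, Pool.Agent.Y123.GN.ev_mul, Pool.Agent.Y123.GN.ev_C, Pool.Agent.Y123.GN.ev_C]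
  have h6 := congrFun (congrFun h5 (ix (n i) a).2) (ix (n i) a).1
  unfold Pool.Agent.Y123.GN.ev at h6
  rw [Matrix.map_apply] at h6
  unfold Gc yM
  exact h6

theorem Gc_none (N : ∀ i, Matrix (Fin (n i)) (Fin (n i)) ℤ) (Ω : ∀ i, Matrix (Fin (n i)) (Fin (n i)) ℂ)
    (ℓ : Fin k → ℂ) (pp : ∀ i, Matrix (Fin (n i)) (Fin (n i)) ℂ) (γ : ∀ i, Matrix (Fin (n i)) (Fin (n i)) (Polynomial ℂ))
    (s : ℂ) (i : Fin k) : (Gc N Ω ℓ pp γ ⟨i, none⟩).eval s = ℓ i := Polynomial.eval_C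

/-- the polynomial in the coordinates -/
noncomputable def PF (N : ∀ i, Matrix (Fin (n i)) (Fin (n i)) ℤ) (Ω : ∀ i, Matrix (Fin (n i)) (Fin (n i)) ℂ)
    (C₀ : Matrix B₀ B₀ ℂ) (F : MvPolynomial (IG B₀ n × IG B₀ n) ℂ) : MvPolynomial (Kx n) ℂ :=
  MvPolynomial.aeval (fun v : Σ i, Fin (n i) × Fin (n i) => blkM N Ω v.1 v.2.1 v.2.2) (MvPolynomial.aeval (PhiG C₀ n) F)

theorem PF_eval (N : ∀ i, Matrix (Fin (n i)) (Fin (n i)) ℤ) (Ω : ∀ i, Matrix (Fin (n i)) (Fin (n i)) ℂ)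
    (C₀ : Matrix B₀ B₀ ℂ) (F : MvPolynomial (IG B₀ n × IG B₀ n) ℂ) (y : Kx n → ℂ) :
    MvPolynomial.aeval y (PF N Ω C₀ F) = MvPolynomial.eval (fl (EG C₀ fun i =>
      Ω i * eN (N i) (y ⟨i, none⟩) * Matrix.of fun a b => y ⟨i, some ((ix (n i)).symm (b, a))⟩)) F := by
  unfold PF
  rw [aeval_comp, ← MvPolynomial.aeval_eq_eval]
  have h1 : (fun v : Σ i, Fin (n i) × Fin (n i) => MvPolynomial.aeval y (blkM N Ω v.1 v.2.1 v.2.2)) =
      fun v : Σ i, Fin (n i) × Fin (n i) => (Ω v.1 * eN (N v.1) (y ⟨v.1, none⟩) *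
        Matrix.of fun a b => y ⟨v.1, some ((ix (n v.1)).symm (b, a))⟩) v.2.1 v.2.2 := by
    funext v
    exact blkM_eval N Ω y v.1 v.2.1 v.2.2
  rw [h1, aeval_comp]
  have h2 : (fun b => MvPolynomial.aeval (fun v : Σ i, Fin (n i) × Fin (n i) => (Ω v.1 * eN (N v.1) (y ⟨v.1, none⟩) *
        Matrix.of fun a b => y ⟨v.1, some ((ix (n v.1)).symm (b, a))⟩) v.2.1 v.2.2) (PhiG C₀ n b)) =
      fl (EG C₀ fun i => Ω i * eN (N i) (y ⟨i, none⟩) * Matrix.of fun a b => y ⟨i, some ((ix (n i)).symm (b, a))⟩) := by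
    funext b
    exact (PhiG_eval C₀ (fun i => Ω i * eN (N i) (y ⟨i, none⟩) *
      Matrix.of fun a b => y ⟨i, some ((ix (n i)).symm (b, a))⟩) b).symm
  rw [h2]

/-- the blocks of the curve -/
def gB (γ : Matrix (IG B₀ n) (IG B₀ n) (Polynomial ℂ)) (i : Fin k) : Matrix (Fin (n i)) (Fin (n i)) (Polynomial ℂ) :=
  Matrix.of fun a b => γ (Sum.inr ⟨i, a⟩) (Sum.inr ⟨i, b⟩)

theorem gB_ev {γ : Matrix (IG B₀ n) (IG B₀ n) (Polynomial ℂ)} {s : ℂ} {u : ∀ i, Matrix (Fin (n i)) (Fin (n i)) ℂ}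
    (h : Pool.Agent.Y123.GN.ev s γ = EG (1 : Matrix B₀ B₀ ℂ) u) (i : Fin k) : Pool.Agent.Y123.GN.ev s (gB γ i) = u i := by
  ext a b
  have h6 := congrFun (congrFun h (Sum.inr ⟨i, a⟩)) (Sum.inr ⟨i, b⟩)
  have h7 : EG (1 : Matrix B₀ B₀ ℂ) u (Sum.inr ⟨i, a⟩) (Sum.inr ⟨i, b⟩) = blockDiagonal' u ⟨i, a⟩ ⟨i, b⟩ := rfl
  rw [h7, blockDiagonal'_apply_eq] at h6
  exact h6

theorem Gc_total {N : ∀ i, Matrix (Fin (n i)) (Fin (n i)) ℤ} (hN : ∀ i, N i ^ n i = 0)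
    {Ω : ∀ i, Matrix (Fin (n i)) (Fin (n i)) ℂ} (hΩ : ∀ i, IsUnit (Ω i)) (ℓ : Fin k → ℂ)
    (pp : ∀ i, Matrix (Fin (n i)) (Fin (n i)) ℂ) (γ : ∀ i, Matrix (Fin (n i)) (Fin (n i)) (Polynomial ℂ)) (s : ℂ)
    (i : Fin k) : Ω i * eN (N i) ((Gc N Ω ℓ pp γ ⟨i, none⟩).eval s) *
      (Matrix.of fun a b => (Gc N Ω ℓ pp γ ⟨i, some ((ix (n i)).symm (b, a))⟩).eval s) =
      Pool.Agent.Y123.GN.ev s (γ i) * pp i := by
  rw [Gc_none]
  have h5 : (Matrix.of fun a b => (Gc N Ω ℓ pp γ ⟨i, some ((ix (n i)).symm (b, a))⟩).eval s) =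
      eN (N i) (-ℓ i) * (Ω i)⁻¹ * (Pool.Agent.Y123.GN.ev s (γ i) * pp i) := by
    ext a b
    rw [Matrix.of_apply, Gc_some]
    unfold yM
    rw [Equiv.apply_symm_apply]
  rw [h5]
  have h6 : Ω i * (Ω i)⁻¹ = 1 := Matrix.mul_nonsing_inv _ ((Matrix.isUnit_iff_isUnit_det _).1 (hΩ i))
  have h7 := eN_mul (hN i) (ℓ i)
  calc Ω i * eN (N i) (ℓ i) * (eN (N i) (-ℓ i) * (Ω i)⁻¹ * (Pool.Agent.Y123.GN.ev s (γ i) * pp i)) =
        Ω i * (eN (N i) (ℓ i) * eN (N i) (-ℓ i)) * (Ω i)⁻¹ * (Pool.Agent.Y123.GN.ev s (γ i) * pp i) := by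
          simp only [Matrix.mul_assoc]
    _ = Pool.Agent.Y123.GN.ev s (γ i) * pp i := by rw [h7, Matrix.mul_one, h6, Matrix.one_mul]

theorem pC_inv {n : ℕ} {N : Matrix (Fin n) (Fin n) ℤ} (hN : N ^ n = 0) {Ω : Matrix (Fin n) (Fin n) ℂ} (hΩ : IsUnit Ω)
    (H : Matrix (Fin n) (Fin n) ℚ⟦X⟧) (z ℓ : ℂ) : eN N (-ℓ) * Ω⁻¹ * pC N H Ω z ℓ = Hm H z := by
  have h5 : Ω⁻¹ * Ω = 1 := Matrix.nonsing_inv_mul _ ((Matrix.isUnit_iff_isUnit_det _).1 hΩ)
  have h6 := eN_mul hN (-ℓ)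
  rw [neg_neg] at h6
  unfold pC
  calc eN N (-ℓ) * Ω⁻¹ * (Ω * eN N ℓ * Hm H z) = eN N (-ℓ) * (Ω⁻¹ * Ω) * eN N ℓ * Hm H z := by
        simp only [Matrix.mul_assoc]
    _ = Hm H z := by rw [h5, Matrix.mul_one, h6, Matrix.one_mul]

end many

end Pool.Agent.NH25.AP
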