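import Pool.Agent.NH25.AP.Tor

/-!
# Relations of period matrices at algebraic points and the unipotent elements of the Galois groups
-/

set_option autoImplicit false
set_option linter.unusedSectionVars false

open Matrix Module PowerSeries Filter Topology

namespace Pool.Agent.NH25.AP

open Pool.Agent.Y916.Al Pool.Agent.Y916.Af Pool.Agent.Y119.HZ Pool.Agent.Y118.UL
open Pool.Agent.TH127.PT Pool.Agent.Y123.ST Pool.Agent.Y123.GN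
open Pool.Agent.Y113 hiding ix

section many

variable {k : ℕ} {n : Fin k → ℕ} {B₀ : Type} [Fintype B₀] [DecidableEq B₀]

theorem PF_DC {N : ∀ i, Matrix (Fin (n i)) (Fin (n i)) ℤ} {Ω : ∀ i, Matrix (Fin (n i)) (Fin (n i)) ℂ}
    {C₀ : Matrix B₀ B₀ ℂ} {F : MvPolynomial (IG B₀ n × IG B₀ n) ℂ}
    {W V : Submodule ℚ ℂ} (h1W : (1 : ℂ) ∈ W) (hΩ : ∀ i a b, Ω i a b ∈ W) {e d : ℕ} (he : ∀ i, n i + 1 ≤ e)
    (hF : DC d V (MvPolynomial.aeval (PhiG C₀ n) F)) : DC (e * d) (V * W ^ d) (PF N Ω C₀ F) := by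
  unfold PF
  exact substE h1W (fun v : Σ i, Fin (n i) × Fin (n i) => blkM N Ω v.1 v.2.1 v.2.2)
    (fun v => blkM_DC hΩ he v.1 v.2.1 v.2.2) hF

theorem ev0_blk {γ : Matrix (IG B₀ n) (IG B₀ n) (Polynomial ℂ)} (h2 : Pool.Agent.Y123.GN.ev 0 γ = 1) (i : Fin k) :
    Pool.Agent.Y123.GN.ev 0 (gB γ i) = 1 := by
  have h5 : Pool.Agent.Y123.GN.ev 0 γ = EG (1 : Matrix B₀ B₀ ℂ) (1 : ∀ i, Matrix (Fin (n i)) (Fin (n i)) ℂ) := by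
    rw [h2, EG_one]
  exact gB_ev h5 i

/-- **the relations of the period matrices are preserved by the unipotent elements** -/
theorem Rl_A {N : ∀ i, Matrix (Fin (n i)) (Fin (n i)) ℤ} {H : ∀ i, Matrix (Fin (n i)) (Fin (n i)) ℚ⟦X⟧}
    {Ω : ∀ i, Matrix (Fin (n i)) (Fin (n i)) ℂ} {C₀ : Matrix B₀ B₀ ℂ} {d : ℕ} {C : ℝ} (hC : 0 ≤ C)
    (hh : ∀ i a b m, |((coeff m (H i a b) : ℚ) : ℝ)| ≤ C ^ (m + 1)) (hN : ∀ i, N i ^ n i = 0) (hΩ : ∀ i, IsUnit (Ω i))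
    {W : Submodule ℚ ℂ} (hbW : ∀ a ∈ (⊥ : Subfield ℂ), a ∈ W) (hC₀ : ∀ a b, C₀ a b ∈ W) (hΩW : ∀ i a b, Ω i a b ∈ W)
    {δ₁ e : ℕ} (he : ∀ i, n i + 1 ≤ e) {α ℓ : Fin k → ℂ} (hℓ : ∀ i, Complex.exp (ℓ i) = α i) (hα : ∀ i, C < ‖α i‖)
    (hexc : ¬ ExcG δ₁ (fun i => hT (H i)) (e * d) 1 (W * W ^ d * W ^ d) α)
    (g : (Matrix (IG B₀ n) (IG B₀ n) ℂ)ˣ) (hg : g ∈ Ug (GG B₀ fun i => Gl (N i) (H i) (Ω i))) :
    Rl ⊥ d (EG C₀ fun i => pC (N i) (H i) (Ω i) (α i) (ℓ i))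
      (g * EG C₀ fun i => pC (N i) (H i) (Ω i) (α i) (ℓ i)) := by
  classical
  have h1W : (1 : ℂ) ∈ W := hbW 1 (⊥ : Subfield ℂ).one_mem
  obtain ⟨γ, γ', h1, h2, h3, h4⟩ := Ug_curve hg
  have hblk : ∀ s, ∃ u : ∀ i, (Matrix (Fin (n i)) (Fin (n i)) ℂ)ˣ, (∀ i, u i ∈ Gl (N i) (H i) (Ω i)) ∧
      Pool.Agent.Y123.GN.ev s γ = EG 1 (fun i => (u i : Matrix (Fin (n i)) (Fin (n i)) ℂ)) ∧
      ∀ i, Pool.Agent.Y123.GN.ev s (gB γ i) = u i := by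
    intro s
    obtain ⟨v, hv, hv'⟩ := h4 s
    obtain ⟨u, hu, rfl⟩ := Ug_le _ hv
    have h5 : Pool.Agent.Y123.GN.ev s γ = EG 1 (fun i => (u i : Matrix (Fin (n i)) (Fin (n i)) ℂ)) := hv'.symm
    exact ⟨u, fun i => hu i (Set.mem_univ i), h5, fun i => gB_ev h5 i⟩
  obtain ⟨pp, hpp⟩ : ∃ pp : ∀ i, Matrix (Fin (n i)) (Fin (n i)) ℂ, pp = fun i => pC (N i) (H i) (Ω i) (α i) (ℓ i) :=
    ⟨_, rfl⟩
  rw [← hpp]
  intro F hF hd h0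
  by_contra hne
  apply hexc
  have hev0 : ∀ i, Pool.Agent.Y123.GN.ev 0 (gB γ i) = 1 := fun i => ev0_blk h2 i
  have hFD : DC d W F := ⟨hd, fun s => hbW _ (hF s)⟩
  have hF₁D : DC d (W * W ^ d) (MvPolynomial.aeval (PhiG C₀ n) F) :=
    DC.subst' h1W (PhiG C₀ n) (PhiG_DC h1W hC₀) hFD
  have hPD : DC (e * d) (W * W ^ d * W ^ d) (PF N Ω C₀ F) := PF_DC h1W hΩW he hF₁D
  have hPs : ∀ s : ℂ, MvPolynomial.aeval (fun c => (Gc N Ω ℓ pp (gB γ) c).eval s) (PF N Ω C₀ F) =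
      MvPolynomial.eval (fl (Pool.Agent.Y123.GN.ev s γ * EG C₀ pp)) F := by
    intro s
    obtain ⟨u, hu, hu1, hu2⟩ := hblk s
    rw [PF_eval, hu1, EG_mul, Matrix.one_mul]
    have h5 : (fun i => Ω i * eN (N i) ((Gc N Ω ℓ pp (gB γ) ⟨i, none⟩).eval s) *
      (Matrix.of fun a b => (Gc N Ω ℓ pp (gB γ) ⟨i, some ((ix (n i)).symm (b, a))⟩).eval s)) =
        fun i => (u i : Matrix (Fin (n i)) (Fin (n i)) ℂ) * pp i := by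
      funext i
      rw [Gc_total hN hΩ, hu2]
    rw [h5]
  have hy0 : (fun c => (Gc N Ω ℓ pp (gB γ) c).eval 0) = ptG (fun i => hT (H i)) α ℓ := by
    funext c
    obtain ⟨i, _ | a⟩ := c
    · rw [Gc_none]
      rfl
    · rw [Gc_some, hev0, Matrix.one_mul, hpp]
      simp only []
      rw [pC_inv (hN i) (hΩ i)]
      rfl
  refine ⟨ℓ, hℓ, {y | ∃ s : ℂ, ∀ c, y c = (Gc N Ω ℓ pp (gB γ) c).eval s}, irrD_of_irr (irr_crv _) _,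
    ⟨0, fun c => congrFun hy0.symm c⟩,
    ?_, ⊥, inferInstance, by rw [IntermediateField.finrank_bot], PF N Ω C₀ F, hPD.1,
    fun s => Submodule.subset_span (hPD.2 s), ?_,
    fun c => (Gc N Ω ℓ pp (gB γ) c).eval 1, ⟨1, fun c => rfl⟩, ?_⟩
  · rintro y ⟨s, hs⟩ i
    obtain ⟨u, hu, hu1, hu2⟩ := hblk s
    have h5 := crv (hN i) hC (hh i) (hΩ i) (hu i).1 (hℓ i) (hα i)
    have h6 : (fun a => y ⟨i, some a⟩) =
        yM (eN (N i) (-ℓ i) * (Ω i)⁻¹ * ((u i : Matrix (Fin (n i)) (Fin (n i)) ℂ) * pC (N i) (H i) (Ω i) (α i) (ℓ i))) := by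
      funext a
      rw [hs, Gc_some, hu2, hpp]
    rw [h6]
    exact h5
  · rw [← hy0, hPs, h2, Matrix.one_mul]
    exact h0
  · rw [hPs, h3]
    exact hne

end many

end Pool.Agent.NH25.AP
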