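import Pool.Agent.NH25.AP.Cnt

/-!
# Families of G-functions at almost all tuples of algebraic points `β_i / a_i`
-/

set_option autoImplicit false

open PowerSeries Module

namespace Pool.Agent.NH25.AP

open Pool.Agent.Y113 Pool.Agent.Y916.Al Pool.Agent.Y916.AW Pool.Agent.Y916.Af Pool.Agent.Y916 Pool.Agent.Y118.UL

variable {r : ℕ}

open Classical in
/-- the points of small absolute value -/
theorem small_le' (m T : ℕ) (hT : 1 ≤ T) {κ : ℝ} {b B₀ : ℝ} (hb1 : 1 ≤ b) (hb : b ≤ B₀ * (T : ℝ) ^ (1 - κ)) :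
    (((Sl.NF m T).filter fun ξ => ‖ξ‖ ≤ b).card : ℝ) ≤
      2 * B₀ * ((3 * 2 ^ m) ^ m * m : ℝ) * (T : ℝ) ^ ((Sl.Mm m : ℝ) - κ) := by
  have hT1 : (1 : ℝ) ≤ T := by exact_mod_cast hT
  have hT0 : (0 : ℝ) < T := by linarith
  set B : ℕ := ⌈b⌉₊ with hB
  have hB1 : 1 ≤ B := Nat.one_le_ceil_iff.2 (by linarith)
  have hBb : (B : ℝ) ≤ 2 * b := by
    have h1 : (B : ℝ) < b + 1 := Nat.ceil_lt_add_one (by linarith)
    linarith
  set C₀ : ℝ := (3 * 2 ^ m) ^ m * m with hC₀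
  have hC₀0 : 0 ≤ C₀ := by positivity
  have h1 := Sl.card_small m T B hT hB1
  have h0 : (((Sl.NF m T).filter fun ξ => ‖ξ‖ ≤ b).card : ℝ) ≤ ((Sl.NF m T).filter fun ξ => ‖ξ‖ ≤ B).card := by
    exact_mod_cast Finset.card_le_card (Finset.monotone_filter_right _ fun ξ _ hξ => le_trans hξ (Nat.le_ceil b))
  refine h0.trans ?_
  have h2 : (T : ℝ) ^ ((Sl.Mm m : ℝ) - κ) = (T : ℝ) ^ Sl.Mm m * (T : ℝ) ^ (1 - κ) / T := by
    rw [← Real.rpow_natCast, ← Real.rpow_add hT0, eq_div_iff hT0.ne']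
    nth_rewrite 2 [← Real.rpow_one (T : ℝ)]
    rw [← Real.rpow_add hT0]
    congr 1
    ring
  rw [h2, ← mul_div_assoc, le_div_iff₀ hT0]
  refine h1.trans ?_
  have h3 : (B : ℝ) ≤ 2 * (B₀ * (T : ℝ) ^ (1 - κ)) := hBb.trans (by linarith)
  calc C₀ * B * (T : ℝ) ^ Sl.Mm m ≤ C₀ * (2 * (B₀ * (T : ℝ) ^ (1 - κ))) * (T : ℝ) ^ Sl.Mm m := by
        refine mul_le_mul_of_nonneg_right (mul_le_mul_of_nonneg_left h3 hC₀0) (by positivity)
    _ = _ := by ring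

open Classical in
/-- tuples with a coordinate of small absolute value -/
theorem small_tuplesA (m k B : ℕ) {η : ℝ} : ∃ C : ℝ, 0 ≤ C ∧ ∀ T : ℕ, 1 ≤ T → ∀ a : Fin k → ℕ,
    (∀ i, 1 ≤ a i ∧ (a i : ℝ) ≤ (T : ℝ) ^ (1 - η)) →
    (((Fintype.piFinset fun _ : Fin k => Sl.NF m T).filter fun β => ∃ i, ‖β i / (a i : ℂ)‖ ≤ (B : ℝ)).card : ℝ) ≤
      C * (T : ℝ) ^ (((k * Sl.Mm m : ℕ) : ℝ) - η) := by
  set C₀ : ℝ := (3 * 2 ^ m) ^ m * m with hC₀
  have hC₀0 : 0 ≤ C₀ := by positivity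
  refine ⟨k * (C₀ ^ (k - 1) * (2 * (B + 1) * C₀)), by positivity, fun T hT a ha => ?_⟩
  have hT1 : (1 : ℝ) ≤ T := by exact_mod_cast hT
  have hT0 : (0 : ℝ) < T := by linarith
  set Sm : Fin k → Finset ℂ := fun i => (Sl.NF m T).filter fun ξ => ‖ξ‖ ≤ (B + 1) * a i with hSm
  have hSc : ∀ i, ((Sm i).card : ℝ) ≤ 2 * (B + 1) * C₀ * (T : ℝ) ^ ((Sl.Mm m : ℝ) - η) := by
    intro i
    have hai : (1 : ℝ) ≤ a i := by exact_mod_cast (ha i).1
    refine small_le' m T hT (B₀ := (B : ℝ) + 1) ?_ ?_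
    · have : (0 : ℝ) ≤ B := Nat.cast_nonneg B
      nlinarith
    · exact mul_le_mul_of_nonneg_left (ha i).2 (by positivity)
  have hsub : ((Fintype.piFinset fun _ : Fin k => Sl.NF m T).filter fun β => ∃ i, ‖β i / (a i : ℂ)‖ ≤ (B : ℝ)) ⊆
      Finset.univ.biUnion fun i : Fin k => Fintype.piFinset fun j : Fin k => if j = i then Sm i else Sl.NF m T := by
    intro β hβ
    obtain ⟨h1, i, hi⟩ := Finset.mem_filter.1 hβ
    rw [Fintype.mem_piFinset] at h1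
    refine Finset.mem_biUnion.2 ⟨i, Finset.mem_univ i, Fintype.mem_piFinset.2 fun j => ?_⟩
    split_ifs with hji
    · subst hji
      refine Finset.mem_filter.2 ⟨h1 j, ?_⟩
      have haj : (1 : ℝ) ≤ a j := by exact_mod_cast (ha j).1
      rw [norm_div, Complex.norm_natCast, div_le_iff₀ (by linarith)] at hi
      nlinarith
    · exact h1 j
  have h1 : (((Fintype.piFinset fun _ : Fin k => Sl.NF m T).filter fun β => ∃ i, ‖β i / (a i : ℂ)‖ ≤ (B : ℝ)).card : ℝ) ≤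
      ∑ i : Fin k, ((Fintype.piFinset fun j : Fin k => if j = i then Sm i else Sl.NF m T).card : ℝ) := by
    exact_mod_cast (Finset.card_le_card hsub).trans Finset.card_biUnion_le
  refine h1.trans ?_
  have h2 : ∀ i : Fin k, ((Fintype.piFinset fun j : Fin k => if j = i then Sm i else Sl.NF m T).card : ℝ) ≤
      (C₀ ^ (k - 1) * (2 * (B + 1) * C₀)) * (T : ℝ) ^ (((k * Sl.Mm m : ℕ) : ℝ) - η) := by
    intro i
    have hk : 1 ≤ k := Nat.one_le_iff_ne_zero.2 fun h0 => by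
      subst h0
      exact i.elim0
    rw [Fintype.card_piFinset]
    have h3 : (∏ j : Fin k, (if j = i then Sm i else Sl.NF m T).card) =
        (Sm i).card * (Sl.NF m T).card ^ (k - 1) := by
      rw [← Finset.mul_prod_erase Finset.univ _ (Finset.mem_univ i), if_pos rfl]
      congr 1
      rw [Finset.prod_congr rfl (g := fun _ => (Sl.NF m T).card) (fun j hj => by
        rw [if_neg (Finset.ne_of_mem_erase hj)]), Finset.prod_const, Finset.card_erase_of_mem (Finset.mem_univ i),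
        Finset.card_univ, Fintype.card_fin]
    rw [h3, Nat.cast_mul, Nat.cast_pow]
    have h4 : ((Sl.NF m T).card : ℝ) ^ (k - 1) ≤ (C₀ * (T : ℝ) ^ Sl.Mm m) ^ (k - 1) :=
      pow_le_pow_left₀ (Nat.cast_nonneg _) (Sl.card_NF m T hT) _
    refine (mul_le_mul (hSc i) h4 (by positivity) (by positivity)).trans (le_of_eq ?_)
    have h5 : (T : ℝ) ^ (((k * Sl.Mm m : ℕ) : ℝ) - η) = (T : ℝ) ^ ((Sl.Mm m : ℝ) - η) * ((T : ℝ) ^ Sl.Mm m) ^ (k - 1) := by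
      rw [← pow_mul, ← Real.rpow_natCast (T : ℝ) (Sl.Mm m * (k - 1)), ← Real.rpow_add hT0]
      congr 1
      obtain ⟨k', rfl⟩ := Nat.exists_eq_add_of_le hk
      rw [Nat.add_sub_cancel_left]
      push_cast
      ring
    rw [h5, mul_pow]
    ring
  refine (Finset.sum_le_sum fun i _ => h2 i).trans ?_
  rw [Finset.sum_const, Finset.card_univ, Fintype.card_fin, nsmul_eq_mul, ← mul_assoc]

/-- almost all tuples, uniformly in the denominators -/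
theorem tupDa {h : Fin r → ℚ⟦X⟧} (hnr : NRh h) (k m δ d D B₀ : ℕ) {η : ℝ} (hη : 0 < η) (hη1 : η ≤ 1) :
    ∃ δ₁ : ℕ, ∃ c : ℝ, 0 < c ∧ ∃ C : ℝ, 0 ≤ C ∧ ∀ V : Submodule ℚ ℂ, Module.Finite ℚ V → finrank ℚ V ≤ D →
      ∀ T : ℕ, 1 ≤ T → ∀ a : Fin k → ℕ, (∀ i, 1 ≤ a i ∧ (a i : ℝ) ≤ (T : ℝ) ^ (1 - η)) →
      ∃ S : Finset (Fin k → ℂ), (S.card : ℝ) ≤ C * (T : ℝ) ^ (((k * Sl.Mm m : ℕ) : ℝ) - c) ∧
        ∀ β : Fin k → ℂ, (∀ i, Sl.AInt m T (β i)) → β ∉ S →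
          (∀ i, (B₀ : ℝ) < ‖β i / (a i : ℂ)‖) ∧ ¬ ExcD δ₁ h δ d V (fun i => β i / a i) := by
  classical
  obtain ⟨I, hI1, hI2⟩ := exists_free h
  have hI : Free h I := ⟨hI1, hI2⟩
  obtain ⟨G, hG1, hval⟩ := hnr
  have hval := hval G le_rfl I hI
  obtain ⟨δ', c, hc, hbr⟩ := t_br2 r h I hI k m d (δ + 1) D
  obtain ⟨B, hB1, hB⟩ := large_ne hc
  obtain ⟨c₁, hc₁, C₁, hC₁, h₁⟩ := tuplesA hG1 hval m hη hη1 δ' k ((D + 2) ^ δ')
  obtain ⟨C₂, hC₂, h₂⟩ := small_tuplesA m k (max B B₀) (η := η)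
  refine ⟨δ', min c₁ η, lt_min hc₁ hη, C₁ + C₂, by positivity, fun V hV hVD T hT a ha => ?_⟩
  have hT1 : (1 : ℝ) ≤ T := by exact_mod_cast hT
  obtain ⟨w, cc, hw⟩ := Pool.Agent.Y916.coords V hV D hVD
  set f : Option (Option (Fin D)) → ℂ := fun o => o.elim 1 fun o => o.elim (2 * Real.pi * Complex.I) w with hf
  set W : Submodule ℚ ℂ := Submodule.span ℚ (Set.range f) with hW
  have hW1 : (1 : ℂ) ∈ W := Submodule.subset_span ⟨none, rfl⟩
  have hWpi : (2 * Real.pi * Complex.I : ℂ) ∈ W := Submodule.subset_span ⟨some none, rfl⟩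
  have hWw : ∀ j, w j ∈ W := fun j => Submodule.subset_span ⟨some (some j), rfl⟩
  have hWf : Module.Finite ℚ W := Module.Finite.span_of_finite ℚ (Set.finite_range _)
  have hWd : finrank ℚ W ≤ D + 2 := by
    refine (finrank_range_le_card _).trans ?_
    simp
  obtain ⟨hb1, hb2⟩ := Om.finrank_pow_le W δ'
  have h3 := h₁ (W ^ δ') hb1 (hb2.trans (Nat.pow_le_pow_left hWd _)) T hT a ha
  have h4 := h₂ T hT a ha
  set B1 := (Fintype.piFinset fun _ : Fin k => Sl.NF m T).filter fun β =>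
        Rel δ' (W ^ δ') (fun p : Fin k × Option I => xc h (β p.1 / a p.1) (p.2.map Subtype.val)) with hB1'
  set B2 := (Fintype.piFinset fun _ : Fin k => Sl.NF m T).filter fun β => ∃ i, ‖β i / (a i : ℂ)‖ ≤ ((max B B₀ : ℕ) : ℝ) with hB2'
  refine ⟨B1 ∪ B2, ?_, ?_⟩
  · have h6 : (T : ℝ) ^ (((k * Sl.Mm m : ℕ) : ℝ) - c₁) ≤ (T : ℝ) ^ (((k * Sl.Mm m : ℕ) : ℝ) - min c₁ η) :=
      Real.rpow_le_rpow_of_exponent_le hT1 (by linarith [min_le_left c₁ η])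
    have h7 : (T : ℝ) ^ (((k * Sl.Mm m : ℕ) : ℝ) - η) ≤ (T : ℝ) ^ (((k * Sl.Mm m : ℕ) : ℝ) - min c₁ η) :=
      Real.rpow_le_rpow_of_exponent_le hT1 (by linarith [min_le_right c₁ η])
    calc ((B1 ∪ B2).card : ℝ) ≤ B1.card + B2.card := by exact_mod_cast Finset.card_union_le _ _
      _ ≤ C₁ * (T : ℝ) ^ (((k * Sl.Mm m : ℕ) : ℝ) - min c₁ η) + C₂ * (T : ℝ) ^ (((k * Sl.Mm m : ℕ) : ℝ) - min c₁ η) :=
          add_le_add (h3.trans (mul_le_mul_of_nonneg_left h6 hC₁)) (h4.trans (mul_le_mul_of_nonneg_left h7 hC₂))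
      _ = _ := by ring
  · intro β hβ hβS
    have hβm : β ∈ Fintype.piFinset fun _ : Fin k => Sl.NF m T := by
      rw [Fintype.mem_piFinset]
      exact fun i => Sl.mem_NF.2 (hβ i)
    have hs : ∀ i, ((max B B₀ : ℕ) : ℝ) < ‖β i / (a i : ℂ)‖ := by
      by_contra hcon
      push Not at hcon
      exact hβS (Finset.mem_union_right _ (Finset.mem_filter.2 ⟨hβm, hcon⟩))
    have hsB : ∀ i, (B : ℝ) < ‖β i / (a i : ℂ)‖ := fun i => lt_of_le_of_lt (by exact_mod_cast le_max_left B B₀) (hs i)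
    refine ⟨fun i => lt_of_le_of_lt (by exact_mod_cast le_max_right B B₀) (hs i), ?_⟩
    rintro ⟨ℓ, hℓ, Y, hY, hmem, hfib, L, hLf, hLd, P, hPd, hPc, hP0, y, hy, hPy⟩
    refine hβS (Finset.mem_union_left _ (Finset.mem_filter.2 ⟨hβm, ?_⟩))
    obtain ⟨P', hP'd, hP'⟩ := coeff_lift L V w cc hw P hPd hPc
    obtain ⟨Q, hQd, hQ, hQ0⟩ := hbr (fun j => 1 / (β j / a j)) (ptc h (fun j => β j / a j) ℓ) Y L w P' (fun j => by
      obtain ⟨K, ξ', h5, h6, h7, -⟩ := (hβ j).pt hT1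
      refine ⟨K, h5, h6, ?_⟩
      rw [one_div, ← h7]
      exact K.inv_mem (K.div_mem ξ'.2 (natCast_mem K _))) (fun j => hB _ (hsB j)) hY hmem hfib hLf hLd hP'd
      (by rw [hP', hP0]) ⟨y, hy, by rwa [hP']⟩
    refine rel_of_Q W hW1 w hWw _ (fun p : Fin k × Option I => ptc h (fun j => β j / a j) ℓ
      (p.1, p.2.map Subtype.val)) ?_ Q hQd hQ hQ0
    rintro ⟨i, _ | s⟩
    · show ℓ i - Complex.log (β i / a i) ∈ W
      have hα0 : β i / a i ≠ 0 := by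
        have h8 : Complex.exp (ℓ i) = β i / a i := hℓ i
        rw [← h8]
        exact Complex.exp_ne_zero _
      obtain ⟨n, hn⟩ := Complex.exp_eq_exp_iff_exists_int.1 ((hℓ i).trans (Complex.exp_log hα0).symm)
      have h5 : ℓ i - Complex.log (β i / a i) = (n : ℚ) • (2 * Real.pi * Complex.I : ℂ) := by
        rw [hn, Rat.smul_def]
        push_cast
        ring
      rw [h5]
      exact W.smul_mem _ hWpi
    · show evc (1 / (β i / a i)) (h s) - evc (1 / (β i / a i)) (h s) ∈ W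
      rw [sub_self]
      exact W.zero_mem

end Pool.Agent.NH25.AP
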