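import Pool.Agent.NH25.AP.Tup
import Pool.Agent.NH25.AP.Dep

/-!
# Several families of G-functions at almost all tuples of algebraic points `β_i / a_i`
-/

set_option autoImplicit false

open PowerSeries Module

namespace Pool.Agent.NH25.AP

open Pool.Agent.Y113 Pool.Agent.Y916.Al Pool.Agent.Y916.AW Pool.Agent.Y916.Af Pool.Agent.Y916 Pool.Agent.Y118.UL
open Pool.Agent.Y977.AF hiding spc Vc

/-- the disjoint union over `Fin (k + 1)` -/
def sgE {k : ℕ} (σ : Fin (k + 1) → Type) : (Σ i : Fin k, σ i.succ) ⊕ σ 0 ≃ Σ i : Fin (k + 1), σ i where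
  toFun := Sum.elim (fun p => ⟨p.1.succ, p.2⟩) (fun s => ⟨0, s⟩)
  invFun := fun p => Fin.cases (motive := fun i => σ i → (Σ i : Fin k, σ i.succ) ⊕ σ 0) (fun s => Sum.inr s)
    (fun i s => Sum.inl ⟨i, s⟩) p.1 p.2
  left_inv := by rintro (⟨i, s⟩ | s) <;> rfl
  right_inv := by
    rintro ⟨i, s⟩
    revert s
    refine Fin.cases ?_ (fun i => ?_) i
    · intro s
      rfl
    · intro s
      rfl

open Classical in
/-- few bad tuples, uniformly in parameters, different families -/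
theorem tuples_countD {ι Λ : Type} {k : ℕ} : ∀ (σ : Fin k → Type) [∀ i, Fintype (σ i)] (pts : Fin k → ℕ → Finset ι)
    (x : ∀ i : Fin k, Λ → ι → σ i → ℂ) (Ad : ℕ → Λ → Prop) (M : Fin k → ℕ)
    (C₀ : ℝ) (_ : 0 ≤ C₀) (_ : ∀ i, ∀ T : ℕ, 1 ≤ T → ((pts i T).card : ℝ) ≤ C₀ * (T : ℝ) ^ M i)
    (_ : ∀ i, ∀ δ D : ℕ, ∃ c : ℝ, 0 < c ∧ ∃ C : ℝ, 0 ≤ C ∧ ∀ (V : Submodule ℚ ℂ), Module.Finite ℚ V →
      Module.finrank ℚ V ≤ D → ∀ T : ℕ, 1 ≤ T → ∀ a : Λ, Ad T a →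
      (((pts i T).filter fun n => Rel δ V (x i a n)).card : ℝ) ≤ C * (T : ℝ) ^ ((M i : ℝ) - c))
    (δ : ℕ), ∀ D : ℕ, ∃ c : ℝ, 0 < c ∧ ∃ C : ℝ, 0 ≤ C ∧ ∀ V : Submodule ℚ ℂ, Module.Finite ℚ V →
      Module.finrank ℚ V ≤ D → ∀ T : ℕ, 1 ≤ T → ∀ a : Fin k → Λ, (∀ i, Ad T (a i)) →
      (((Fintype.piFinset fun i : Fin k => pts i T).filter fun t =>
        Rel δ V (fun p : Σ i, σ i => x p.1 (a p.1) (t p.1) p.2)).card : ℝ) ≤
          C * (T : ℝ) ^ (((∑ i, M i : ℕ) : ℝ) - c) := by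
  induction k with
  | zero =>
    intro σ _ pts x Ad M C₀ hC₀ hpts hbad δ D
    refine ⟨1, one_pos, 0, le_rfl, fun V _ _ T _ a _ => ?_⟩
    rw [Finset.filter_false_of_mem, Finset.card_empty]
    · simp
    · rintro t _ ⟨P, hP0, -, -, hPv⟩
      obtain ⟨a, rfl⟩ : ∃ a, P = MvPolynomial.C a := ⟨_, MvPolynomial.eq_C_of_isEmpty P⟩
      rw [MvPolynomial.aeval_C] at hPv
      apply hP0
      have : a = 0 := hPv
      rw [this, map_zero]
  | succ k ih =>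
    intro σ _ pts x Ad M C₀ hC₀ hpts hbad δ D
    obtain ⟨c₁, hc₁, C₁, hC₁, h₁⟩ := ih (fun i => σ i.succ) (fun i => pts i.succ) (fun i => x i.succ) Ad (fun i => M i.succ)
      C₀ hC₀ (fun i => hpts i.succ) (fun i => hbad i.succ) δ D
    obtain ⟨c₂, hc₂, C₂, hC₂, h₂⟩ := hbad 0 δ (D * (Fintype.card (Σ i : Fin k, σ i.succ) + 1) ^ δ)
    refine ⟨min c₁ c₂, lt_min hc₁ hc₂, C₀ * C₁ + C₀ ^ k * C₂, by positivity, fun V hV hVD T hT a ha => ?_⟩
    have hT1 : (1 : ℝ) ≤ T := by exact_mod_cast hT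
    have hT0 : (0 : ℝ) < T := by linarith
    set tp : (Fin k → ι) → (Σ i : Fin k, σ i.succ) → ℂ := fun t p => x p.1.succ (a p.1.succ) (t p.1) p.2 with htp
    set bad₁ := (Fintype.piFinset fun i : Fin k => pts i.succ T).filter fun t => Rel δ V (tp t) with hbad₁
    set bad₂ : (Fin k → ι) → Finset ι := fun t => (pts 0 T).filter fun n =>
      Rel δ (V * (Pool.Agent.Y113.sp (tp t)) ^ δ) (x 0 (a 0) n) with hbad₂
    have hsub : ((Fintype.piFinset fun i : Fin (k + 1) => pts i T).filter fun t =>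
        Rel δ V (fun p : Σ i, σ i => x p.1 (a p.1) (t p.1) p.2)) ⊆
        ((pts 0 T ×ˢ bad₁).image fun p => (Fin.cons p.1 p.2 : Fin (k + 1) → ι)) ∪
        (((Fintype.piFinset fun i : Fin k => pts i.succ T).sigma bad₂).image
          fun p => (Fin.cons p.2 p.1 : Fin (k + 1) → ι)) := by
      intro t ht
      obtain ⟨ht1, ht2⟩ := Finset.mem_filter.1 ht
      rw [Fintype.mem_piFinset] at ht1
      have h3 := ht2.reindex (sgE σ)
      have h4 : (fun j => x (sgE σ j).1 (a (sgE σ j).1) (t (sgE σ j).1) (sgE σ j).2) =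
          Sum.elim (tp fun i => t i.succ) (x 0 (a 0) (t 0)) := by
        funext j
        rcases j with ⟨i, s⟩ | s
        · rfl
        · rfl
      rw [h4] at h3
      have htail : (fun i => t i.succ) ∈ Fintype.piFinset fun i : Fin k => pts i.succ T := by
        rw [Fintype.mem_piFinset]
        exact fun i => ht1 i.succ
      rcases h3.split with h5 | h5
      · refine Finset.mem_union_left _ (Finset.mem_image.2 ⟨(t 0, fun i => t i.succ), ?_, ?_⟩)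
        · exact Finset.mem_product.2 ⟨ht1 0, Finset.mem_filter.2 ⟨htail, h5⟩⟩
        · funext i
          refine Fin.cases ?_ (fun i => ?_) i <;> simp
      · refine Finset.mem_union_right _ (Finset.mem_image.2 ⟨⟨fun i => t i.succ, t 0⟩, ?_, ?_⟩)
        · exact Finset.mem_sigma.2 ⟨htail, Finset.mem_filter.2 ⟨ht1 0, h5⟩⟩
        · funext i
          refine Fin.cases ?_ (fun i => ?_) i <;> simp
    have hcard : (((Fintype.piFinset fun i : Fin (k + 1) => pts i T).filter fun t =>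
        Rel δ V (fun p : Σ i, σ i => x p.1 (a p.1) (t p.1) p.2)).card : ℝ) ≤
        (C₀ * (T : ℝ) ^ M 0) * (C₁ * (T : ℝ) ^ (((∑ i : Fin k, M i.succ : ℕ) : ℝ) - c₁)) +
          (C₀ ^ k * (T : ℝ) ^ (∑ i : Fin k, M i.succ)) * (C₂ * (T : ℝ) ^ ((M 0 : ℝ) - c₂)) := by
      have h3 : (((Fintype.piFinset fun i : Fin (k + 1) => pts i T).filter fun t =>
          Rel δ V (fun p : Σ i, σ i => x p.1 (a p.1) (t p.1) p.2)).card : ℝ) ≤
          ((pts 0 T ×ˢ bad₁).card : ℝ) + (((Fintype.piFinset fun i : Fin k => pts i.succ T).sigma bad₂).card : ℝ) := by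
        exact_mod_cast (Finset.card_le_card hsub).trans ((Finset.card_union_le _ _).trans
          (add_le_add Finset.card_image_le Finset.card_image_le))
      refine h3.trans (add_le_add ?_ ?_)
      · rw [Finset.card_product, Nat.cast_mul]
        exact mul_le_mul (hpts 0 T hT) (h₁ V hV hVD T hT (fun i => a i.succ) fun i => ha i.succ) (by positivity)
          (by positivity)
      · rw [Finset.card_sigma, Nat.cast_sum]
        have h4 : ∀ t ∈ Fintype.piFinset (fun i : Fin k => pts i.succ T), ((bad₂ t).card : ℝ) ≤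
            C₂ * (T : ℝ) ^ ((M 0 : ℝ) - c₂) := by
          intro t _
          obtain ⟨hs1, hs2⟩ := sp_fin (tp t)
          obtain ⟨hp1, hp2⟩ := finrank_pow_le (Pool.Agent.Y113.sp (tp t)) δ
          obtain ⟨hq1, hq2⟩ := finrank_mul_le V ((Pool.Agent.Y113.sp (tp t)) ^ δ)
          refine h₂ (V * (Pool.Agent.Y113.sp (tp t)) ^ δ) hq1 (hq2.trans ?_) T hT (a 0) (ha 0)
          exact Nat.mul_le_mul hVD (hp2.trans (Nat.pow_le_pow_left hs2 _))
        refine (Finset.sum_le_card_nsmul _ _ _ h4).trans ?_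
        rw [nsmul_eq_mul, Fintype.card_piFinset]
        rw [Nat.cast_prod]
        refine mul_le_mul_of_nonneg_right ?_ (by positivity)
        refine (Finset.prod_le_prod (fun i _ => Nat.cast_nonneg _) fun i _ => hpts i.succ T hT).trans (le_of_eq ?_)
        rw [Finset.prod_mul_distrib, Finset.prod_const, Finset.card_univ, Fintype.card_fin, Finset.prod_pow_eq_pow_sum]
    refine hcard.trans ?_
    have e1 : (C₀ * (T : ℝ) ^ M 0) * (C₁ * (T : ℝ) ^ (((∑ i : Fin k, M i.succ : ℕ) : ℝ) - c₁)) =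
        C₀ * C₁ * (T : ℝ) ^ (((∑ i, M i : ℕ) : ℝ) - c₁) := by
      have : (((∑ i, M i : ℕ) : ℝ) - c₁) = (M 0 : ℝ) + (((∑ i : Fin k, M i.succ : ℕ) : ℝ) - c₁) := by
        rw [Fin.sum_univ_succ]
        push_cast
        ring
      rw [this, Real.rpow_add hT0, Real.rpow_natCast]
      ring
    have e2 : (C₀ ^ k * (T : ℝ) ^ (∑ i : Fin k, M i.succ)) * (C₂ * (T : ℝ) ^ ((M 0 : ℝ) - c₂)) =
        C₀ ^ k * C₂ * (T : ℝ) ^ (((∑ i, M i : ℕ) : ℝ) - c₂) := by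
      have : (((∑ i, M i : ℕ) : ℝ) - c₂) = ((∑ i : Fin k, M i.succ : ℕ) : ℝ) + ((M 0 : ℝ) - c₂) := by
        rw [Fin.sum_univ_succ]
        push_cast
        ring
      rw [this, Real.rpow_add hT0, Real.rpow_natCast]
      ring
    rw [e1, e2, add_mul (C₀ * C₁)]
    refine add_le_add (mul_le_mul_of_nonneg_left ?_ (mul_nonneg hC₀ hC₁))
      (mul_le_mul_of_nonneg_left ?_ (mul_nonneg (pow_nonneg hC₀ k) hC₂))
    · exact Real.rpow_le_rpow_of_exponent_le hT1 (by linarith [min_le_left c₁ c₂])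
    · exact Real.rpow_le_rpow_of_exponent_le hT1 (by linarith [min_le_right c₁ c₂])

open Classical in
/-- tuples with a coordinate of small absolute value -/
theorem small_tuplesD {k : ℕ} (m : Fin k → ℕ) (B : ℕ) {η : ℝ} : ∃ C : ℝ, 0 ≤ C ∧ ∀ T : ℕ, 1 ≤ T → ∀ a : Fin k → ℕ,
    (∀ i, 1 ≤ a i ∧ (a i : ℝ) ≤ (T : ℝ) ^ (1 - η)) →
    (((Fintype.piFinset fun i : Fin k => Sl.NF (m i) T).filter fun β => ∃ i, ‖β i / (a i : ℂ)‖ ≤ (B : ℝ)).card : ℝ) ≤
      C * (T : ℝ) ^ (((∑ i, Sl.Mm (m i) : ℕ) : ℝ) - η) := by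
  set C₀ : ℝ := 1 + ∑ i, ((3 * 2 ^ m i) ^ m i * m i : ℝ) with hC₀
  have hC₀0 : 0 ≤ C₀ := by positivity
  have hC₀i : ∀ i, ((3 * 2 ^ m i) ^ m i * m i : ℝ) ≤ C₀ := by
    intro i
    have h1 : ((3 * 2 ^ m i) ^ m i * m i : ℝ) ≤ ∑ i, ((3 * 2 ^ m i) ^ m i * m i : ℝ) :=
      Finset.single_le_sum (f := fun i => ((3 * 2 ^ m i) ^ m i * m i : ℝ)) (fun i _ => by positivity) (Finset.mem_univ i)
    linarith
  have hNF : ∀ i (T : ℕ), 1 ≤ T → ((Sl.NF (m i) T).card : ℝ) ≤ C₀ * (T : ℝ) ^ Sl.Mm (m i) := by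
    intro i T hT
    exact (Sl.card_NF (m i) T hT).trans (mul_le_mul_of_nonneg_right (hC₀i i) (by positivity))
  refine ⟨k * (2 * (B + 1) * C₀ * C₀ ^ (k - 1)), by positivity, fun T hT a ha => ?_⟩
  have hT1 : (1 : ℝ) ≤ T := by exact_mod_cast hT
  have hT0 : (0 : ℝ) < T := by linarith
  set Sm : Fin k → Finset ℂ := fun i => (Sl.NF (m i) T).filter fun ξ => ‖ξ‖ ≤ (B + 1) * a i with hSm
  have hSc : ∀ i, ((Sm i).card : ℝ) ≤ 2 * (B + 1) * C₀ * (T : ℝ) ^ ((Sl.Mm (m i) : ℝ) - η) := by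
    intro i
    have hai : (1 : ℝ) ≤ a i := by exact_mod_cast (ha i).1
    refine (small_le' (m i) T hT (κ := η) (B₀ := (B : ℝ) + 1) ?_ ?_).trans ?_
    · have : (0 : ℝ) ≤ B := Nat.cast_nonneg B
      nlinarith
    · exact mul_le_mul_of_nonneg_left (ha i).2 (by positivity)
    · exact mul_le_mul_of_nonneg_right (mul_le_mul_of_nonneg_left (hC₀i i) (by positivity)) (by positivity)
  have hsub : ((Fintype.piFinset fun i : Fin k => Sl.NF (m i) T).filter fun β => ∃ i, ‖β i / (a i : ℂ)‖ ≤ (B : ℝ)) ⊆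
      Finset.univ.biUnion fun i : Fin k => Fintype.piFinset fun j : Fin k => if j = i then Sm j else Sl.NF (m j) T := by
    intro β hβ
    obtain ⟨h1, i, hi⟩ := Finset.mem_filter.1 hβ
    rw [Fintype.mem_piFinset] at h1
    refine Finset.mem_biUnion.2 ⟨i, Finset.mem_univ i, Fintype.mem_piFinset.2 fun j => ?_⟩
    split_ifs with hji
    · subst hji
      refine Finset.mem_filter.2 ⟨h1 j, ?_⟩
      have haj : (1 : ℝ) ≤ a j := by exact_mod_cast (ha j).1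
      rw [norm_div, Complex.norm_natCast, div_le_iff₀ (by linarith)] at hi
      nlinarith
    · exact h1 j
  have h1 : (((Fintype.piFinset fun i : Fin k => Sl.NF (m i) T).filter fun β => ∃ i, ‖β i / (a i : ℂ)‖ ≤ (B : ℝ)).card : ℝ) ≤
      ∑ i : Fin k, ((Fintype.piFinset fun j : Fin k => if j = i then Sm j else Sl.NF (m j) T).card : ℝ) := by
    exact_mod_cast (Finset.card_le_card hsub).trans Finset.card_biUnion_le
  refine h1.trans ?_
  have h2 : ∀ i : Fin k, ((Fintype.piFinset fun j : Fin k => if j = i then Sm j else Sl.NF (m j) T).card : ℝ) ≤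
      (2 * (B + 1) * C₀ * C₀ ^ (k - 1)) * (T : ℝ) ^ (((∑ i, Sl.Mm (m i) : ℕ) : ℝ) - η) := by
    intro i
    rw [Fintype.card_piFinset]
    have h3 : (∏ j : Fin k, (if j = i then Sm j else Sl.NF (m j) T).card) =
        (Sm i).card * ∏ j ∈ Finset.univ.erase i, (Sl.NF (m j) T).card := by
      rw [← Finset.mul_prod_erase Finset.univ _ (Finset.mem_univ i), if_pos rfl]
      congr 1
      exact Finset.prod_congr rfl fun j hj => by rw [if_neg (Finset.ne_of_mem_erase hj)]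
    rw [h3, Nat.cast_mul, Nat.cast_prod]
    have h4 : ∏ j ∈ Finset.univ.erase i, ((Sl.NF (m j) T).card : ℝ) ≤
        C₀ ^ (k - 1) * (T : ℝ) ^ (∑ j ∈ Finset.univ.erase i, Sl.Mm (m j)) := by
      refine (Finset.prod_le_prod (fun i _ => Nat.cast_nonneg _) fun j _ => hNF j T hT).trans (le_of_eq ?_)
      rw [Finset.prod_mul_distrib, Finset.prod_const, Finset.card_erase_of_mem (Finset.mem_univ i), Finset.card_univ,
        Fintype.card_fin, Finset.prod_pow_eq_pow_sum]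
    refine (mul_le_mul (hSc i) h4 (Finset.prod_nonneg fun _ _ => Nat.cast_nonneg _) (by positivity)).trans (le_of_eq ?_)
    have h5 : (T : ℝ) ^ (((∑ i, Sl.Mm (m i) : ℕ) : ℝ) - η) =
        (T : ℝ) ^ ((Sl.Mm (m i) : ℝ) - η) * (T : ℝ) ^ (∑ j ∈ Finset.univ.erase i, Sl.Mm (m j)) := by
      rw [← Real.rpow_natCast (T : ℝ) (∑ j ∈ Finset.univ.erase i, Sl.Mm (m j)), ← Real.rpow_add hT0]
      congr 1
      rw [← Finset.add_sum_erase Finset.univ _ (Finset.mem_univ i)]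
      push_cast
      ring
    rw [h5]
    ring
  refine (Finset.sum_le_sum fun i _ => h2 i).trans ?_
  rw [Finset.sum_const, Finset.card_univ, Fintype.card_fin, nsmul_eq_mul, ← mul_assoc]

section
variable {k : ℕ} {r : Fin k → ℕ}

/-- the logarithms and the values of the functions at the points -/
noncomputable def ptG (h : ∀ i, Fin (r i) → ℚ⟦X⟧) (α ℓ : Fin k → ℂ) : (Σ i, Option (Fin (r i))) → ℂ :=
  fun p => p.2.elim (ℓ p.1) fun s => evc (1 / α p.1) (h p.1 s)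

/-- the exceptional tuples, irreducible sets in bounded degree -/
def ExcG (δ₁ : ℕ) (h : ∀ i, Fin (r i) → ℚ⟦X⟧) (δ d : ℕ) (V : Submodule ℚ ℂ) (α : Fin k → ℂ) : Prop :=
  ∃ ℓ : Fin k → ℂ, (∀ i, Complex.exp (ℓ i) = α i) ∧ ∃ Y : Set ((Σ i, Option (Fin (r i))) → ℂ), IrrD δ₁ Y ∧ ptG h α ℓ ∈ Y ∧
    (∀ y ∈ Y, ∀ j, (fun i => y ⟨j, some i⟩) ∈ Vc (h j) (1 / α j)) ∧
    ∃ L : IntermediateField ℚ ℂ, FiniteDimensional ℚ L ∧ finrank ℚ L ≤ d ∧
    ∃ P : MvPolynomial (Σ i, Option (Fin (r i))) ℂ, P.totalDegree ≤ δ ∧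
      (∀ s, P.coeff s ∈ Submodule.span L (V : Set ℂ)) ∧
      MvPolynomial.aeval (ptG h α ℓ) P = 0 ∧ ∃ y ∈ Y, MvPolynomial.aeval y P ≠ 0

/-- **almost all tuples, several families, uniformly in the denominators** -/
theorem tupDaG {h : ∀ i, Fin (r i) → ℚ⟦X⟧} (hnr : ∀ i, NRh (h i)) (m : Fin k → ℕ) (δ d D B₀ : ℕ) {η : ℝ} (hη : 0 < η)
    (hη1 : η ≤ 1) :
    ∃ δ₁ : ℕ, ∃ c : ℝ, 0 < c ∧ ∃ C : ℝ, 0 ≤ C ∧ ∀ V : Submodule ℚ ℂ, Module.Finite ℚ V → finrank ℚ V ≤ D →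
      ∀ T : ℕ, 1 ≤ T → ∀ a : Fin k → ℕ, (∀ i, 1 ≤ a i ∧ (a i : ℝ) ≤ (T : ℝ) ^ (1 - η)) →
      ∃ S : Finset (Fin k → ℂ), (S.card : ℝ) ≤ C * (T : ℝ) ^ (((∑ i, Sl.Mm (m i) : ℕ) : ℝ) - c) ∧
        ∀ β : Fin k → ℂ, (∀ i, Sl.AInt (m i) T (β i)) → β ∉ S →
          (∀ i, (B₀ : ℝ) < ‖β i / (a i : ℂ)‖) ∧ ¬ ExcG δ₁ h δ d V (fun i => β i / a i) := by
  classical
  choose I hI1 hI2 using fun i => exists_free (h i)
  have hI : ∀ i, Free (h i) (I i) := fun i => ⟨hI1 i, hI2 i⟩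
  choose G hG1 hval using hnr
  have hval := fun i => hval i (G i) le_rfl (I i) (hI i)
  choose R hR1 hR2 using fun i => exists_Rc (hI2 i)
  -- the relations of all coordinates
  set e : (Σ i, Option (I i)) → Σ i, Option (Fin (r i)) := fun p => ⟨p.1, p.2.map Subtype.val⟩ with he
  set RR : (Σ i, Option (Fin (r i))) → Polynomial (MvPolynomial (Σ i, Option (I i)) (Polynomial ℚ)) := fun p =>
    (R p.1 p.2).map (MvPolynomial.rename (R := Polynomial ℚ) (fun o : Option (I p.1) =>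
      (⟨p.1, o⟩ : Σ i, Option (I i)))).toRingHom with hRR
  have hinj : ∀ i, Function.Injective (MvPolynomial.rename (R := Polynomial ℚ) (fun o : Option (I i) =>
      (⟨i, o⟩ : Σ i, Option (I i)))) := fun i => MvPolynomial.rename_injective _ fun o o' ho => by
    simpa using ho
  have hRR0 : ∀ p, RR p ≠ 0 := fun p => (Polynomial.map_ne_zero_iff (hinj p.1)).2 (hR1 p.1 p.2)
  have hRRe : ∀ (x : Fin k → ℂ) (y : (Σ i, Option (Fin (r i))) → ℂ),
      (∀ j, (fun i => y ⟨j, some i⟩) ∈ Vc (h j) (x j)) → ∀ p,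
      Polynomial.eval₂ (Pool.Agent.Y916.Af.spc e (x p.1) y) (y p) (RR p) = 0 := by
    intro x y hy p
    have h1 := hR2 p.1 (x p.1) (fun o => y ⟨p.1, o⟩) (hy p.1) p.2
    rw [hRR]
    rw [Polynomial.eval₂_map]
    refine Eq.trans ?_ h1
    congr 1
    refine MvPolynomial.ringHom_ext (fun c => ?_) (fun o => ?_)
    · show Pool.Agent.Y916.Af.spc e (x p.1) y (MvPolynomial.rename _ (MvPolynomial.C c)) =
        Pool.Agent.Y916.Af.spc _ (x p.1) _ (MvPolynomial.C c)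
      rw [MvPolynomial.rename_C]
      unfold Pool.Agent.Y916.Af.spc
      rw [MvPolynomial.eval₂Hom_C, MvPolynomial.eval₂Hom_C]
    · show Pool.Agent.Y916.Af.spc e (x p.1) y (MvPolynomial.rename _ (MvPolynomial.X o)) =
        Pool.Agent.Y916.Af.spc _ (x p.1) _ (MvPolynomial.X o)
      rw [MvPolynomial.rename_X]
      unfold Pool.Agent.Y916.Af.spc
      rw [MvPolynomial.eval₂Hom_X', MvPolynomial.eval₂Hom_X']
  obtain ⟨δ', c, hc, hbr⟩ := brG (Σ i, Option (Fin (r i))) (Σ i, Option (I i)) e (fun p => p.1) RR hRR0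
    (Finset.univ.sup m) d (δ + 1) D
  obtain ⟨B, hB1, hB⟩ := large_ne hc
  have hAD : ∀ i, ∀ δ D : ℕ, ∃ c : ℝ, 0 < c ∧ ∃ C : ℝ, 0 ≤ C ∧ ∀ (V : Submodule ℚ ℂ), Module.Finite ℚ V →
      Module.finrank ℚ V ≤ D → ∀ T : ℕ, 1 ≤ T → ∀ a : ℕ, (1 ≤ a ∧ (a : ℝ) ≤ (T : ℝ) ^ (1 - η)) →
      (((Sl.NF (m i) T).filter fun ξ => Rel δ V (fun o : Option (I i) => xc (h i) (ξ / a) (o.map Subtype.val))).card : ℝ) ≤
        C * (T : ℝ) ^ ((Sl.Mm (m i) : ℝ) - c) := fun i δ D => deg_badA (hG1 i) (hval i) (m i) hη hη1 δ D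
  obtain ⟨c₁, hc₁, C₁, hC₁, h₁⟩ := tuples_countD (ι := ℂ) (Λ := ℕ) (fun i => Option (I i)) (fun i T => Sl.NF (m i) T)
    (fun i (a : ℕ) (β : ℂ) (o : Option (I i)) => xc (h i) (β / a) (o.map Subtype.val))
    (fun T a => 1 ≤ a ∧ (a : ℝ) ≤ (T : ℝ) ^ (1 - η)) (fun i => Sl.Mm (m i))
    (1 + ∑ i, ((3 * 2 ^ m i) ^ m i * m i : ℝ)) (by positivity) (fun i T hT => by
      refine (Sl.card_NF (m i) T hT).trans (mul_le_mul_of_nonneg_right ?_ (by positivity))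
      have h1 : ((3 * 2 ^ m i) ^ m i * m i : ℝ) ≤ ∑ i, ((3 * 2 ^ m i) ^ m i * m i : ℝ) :=
        Finset.single_le_sum (f := fun i => ((3 * 2 ^ m i) ^ m i * m i : ℝ)) (fun i _ => by positivity)
          (Finset.mem_univ i)
      linarith) hAD δ' ((D + 2) ^ δ')
  obtain ⟨C₂, hC₂, h₂⟩ := small_tuplesD m (max B B₀) (η := η)
  refine ⟨δ', min c₁ η, lt_min hc₁ hη, C₁ + C₂, by positivity, fun V hV hVD T hT a ha => ?_⟩
  have hT1 : (1 : ℝ) ≤ T := by exact_mod_cast hT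
  obtain ⟨w, cc, hw⟩ := Pool.Agent.Y916.coords V hV D hVD
  set f : Option (Option (Fin D)) → ℂ := fun o => o.elim 1 fun o => o.elim (2 * Real.pi * Complex.I) w with hf
  set W : Submodule ℚ ℂ := Submodule.span ℚ (Set.range f) with hW
  have hW1 : (1 : ℂ) ∈ W := Submodule.subset_span ⟨none, rfl⟩
  have hWpi : (2 * Real.pi * Complex.I : ℂ) ∈ W := Submodule.subset_span ⟨some none, rfl⟩
  have hWw : ∀ j, w j ∈ W := fun j => Submodule.subset_span ⟨some (some j), rfl⟩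
  have hWf : Module.Finite ℚ W := Module.Finite.span_of_finite ℚ (Set.finite_range _)
  have hWd : finrank ℚ W ≤ D + 2 := by
    refine (finrank_range_le_card _).trans ?_
    simp
  obtain ⟨hb1, hb2⟩ := Om.finrank_pow_le W δ'
  have h3 := h₁ (W ^ δ') hb1 (hb2.trans (Nat.pow_le_pow_left hWd _)) T hT a ha
  have h4 := h₂ T hT a ha
  set B1 := (Fintype.piFinset fun i : Fin k => Sl.NF (m i) T).filter fun β =>
        Rel δ' (W ^ δ') (fun p : Σ i, Option (I i) => xc (h p.1) (β p.1 / a p.1) (p.2.map Subtype.val)) with hB1'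
  set B2 := (Fintype.piFinset fun i : Fin k => Sl.NF (m i) T).filter fun β =>
    ∃ i, ‖β i / (a i : ℂ)‖ ≤ ((max B B₀ : ℕ) : ℝ) with hB2'
  refine ⟨B1 ∪ B2, ?_, ?_⟩
  · have h6 : (T : ℝ) ^ (((∑ i, Sl.Mm (m i) : ℕ) : ℝ) - c₁) ≤ (T : ℝ) ^ (((∑ i, Sl.Mm (m i) : ℕ) : ℝ) - min c₁ η) :=
      Real.rpow_le_rpow_of_exponent_le hT1 (by linarith [min_le_left c₁ η])
    have h7 : (T : ℝ) ^ (((∑ i, Sl.Mm (m i) : ℕ) : ℝ) - η) ≤ (T : ℝ) ^ (((∑ i, Sl.Mm (m i) : ℕ) : ℝ) - min c₁ η) :=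
      Real.rpow_le_rpow_of_exponent_le hT1 (by linarith [min_le_right c₁ η])
    calc ((B1 ∪ B2).card : ℝ) ≤ B1.card + B2.card := by exact_mod_cast Finset.card_union_le _ _
      _ ≤ C₁ * (T : ℝ) ^ (((∑ i, Sl.Mm (m i) : ℕ) : ℝ) - min c₁ η) +
          C₂ * (T : ℝ) ^ (((∑ i, Sl.Mm (m i) : ℕ) : ℝ) - min c₁ η) :=
          add_le_add (h3.trans (mul_le_mul_of_nonneg_left h6 hC₁)) (h4.trans (mul_le_mul_of_nonneg_left h7 hC₂))
      _ = _ := by ring
  · intro β hβ hβS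
    have hβm : β ∈ Fintype.piFinset fun i : Fin k => Sl.NF (m i) T := by
      rw [Fintype.mem_piFinset]
      exact fun i => Sl.mem_NF.2 (hβ i)
    have hs : ∀ i, ((max B B₀ : ℕ) : ℝ) < ‖β i / (a i : ℂ)‖ := by
      by_contra hcon
      push Not at hcon
      exact hβS (Finset.mem_union_right _ (Finset.mem_filter.2 ⟨hβm, hcon⟩))
    have hsB : ∀ i, (B : ℝ) < ‖β i / (a i : ℂ)‖ := fun i => lt_of_le_of_lt (by exact_mod_cast le_max_left B B₀) (hs i)
    refine ⟨fun i => lt_of_le_of_lt (by exact_mod_cast le_max_right B B₀) (hs i), ?_⟩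
    rintro ⟨ℓ, hℓ, Y, hY, hmem, hfib, L, hLf, hLd, P, hPd, hPc, hP0, y, hy, hPy⟩
    refine hβS (Finset.mem_union_left _ (Finset.mem_filter.2 ⟨hβm, ?_⟩))
    obtain ⟨P', hP'd, hP'⟩ := coeff_lift L V w cc hw P hPd hPc
    obtain ⟨Q, hQd, hQ, hQ0⟩ := hbr (fun j => 1 / (β j / a j)) (ptG h (fun j => β j / a j) ℓ) Y L w P' (fun j => by
      obtain ⟨K, ξ', h5, h6, h7, -⟩ := (hβ j).pt hT1
      refine ⟨K, h5, h6.trans (Finset.le_sup (f := m) (Finset.mem_univ j)), ?_⟩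
      rw [one_div, ← h7]
      exact K.inv_mem (K.div_mem ξ'.2 (natCast_mem K _))) (fun j => hB _ (hsB j)) hY hmem
      (fun y hy p => hRRe (fun j => 1 / (β j / a j)) y (hfib y hy) p) hLf hLd hP'd
      (by rw [hP', hP0]) ⟨y, hy, by rwa [hP']⟩
    refine rel_of_Q W hW1 w hWw _ (fun p : Σ i, Option (I i) => ptG h (fun j => β j / a j) ℓ (e p)) ?_ Q hQd hQ hQ0
    rintro ⟨i, _ | s⟩
    · show ℓ i - Complex.log (β i / a i) ∈ W
      have hα0 : β i / a i ≠ 0 := by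
        have h8 : Complex.exp (ℓ i) = β i / a i := hℓ i
        rw [← h8]
        exact Complex.exp_ne_zero _
      obtain ⟨n, hn⟩ := Complex.exp_eq_exp_iff_exists_int.1 ((hℓ i).trans (Complex.exp_log hα0).symm)
      have h5 : ℓ i - Complex.log (β i / a i) = (n : ℚ) • (2 * Real.pi * Complex.I : ℂ) := by
        rw [hn, Rat.smul_def]
        push_cast
        ring
      rw [h5]
      exact W.smul_mem _ hWpi
    · show evc (1 / (β i / a i)) (h i s) - evc (1 / (β i / a i)) (h i s) ∈ W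
      rw [sub_self]
      exact W.zero_mem

end

end Pool.Agent.NH25.AP
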